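import Mathlib

/-!
Colourings at a fixed scale (Nagata dimension type statements).
-/

open Set Metric

namespace Pool.Agent.P.MP_e0d06b_an

/-- `A` has a colouring by `κ` whose `s`-components have representatives within distance `D`. -/
def Col (κ : Type*) {X : Type*} [PseudoMetricSpace X] (A : Set X) (s D : ℝ) : Prop :=
  ∃ (χ : X → κ) (ρ : X → X), (∀ z ∈ A, ∀ z' ∈ A, χ z = χ z' → dist z z' ≤ s → ρ z = ρ z') ∧
    ∀ z ∈ A, dist z (ρ z) ≤ D

variable {κ : Type*} {X : Type*} [PseudoMetricSpace X]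

lemma Col.mono {A B : Set X} {s s' D D' : ℝ} (h : Col κ A s D) (hB : B ⊆ A) (hs : s' ≤ s)
    (hD : D ≤ D') : Col κ B s' D' := by
  obtain ⟨χ, ρ, h1, h2⟩ := h
  exact ⟨χ, ρ, fun z hz z' hz' e hd => h1 z (hB hz) z' (hB hz') e (hd.trans hs),
    fun z hz => (h2 z (hB hz)).trans hD⟩

lemma Col.union {A B : Set X} {s σ DA DB : ℝ} (hA : Col κ A s DA) (hB : Col κ B σ DB)
    (hs : 0 ≤ s) (hDA : 0 ≤ DA) (hDB : 0 ≤ DB) (hσ : 2 * DA + 2 * s ≤ σ) :
    Col κ (A ∪ B) s (2 * DA + s + DB) := by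
  classical
  obtain ⟨χA, ρA, hA1, hA2⟩ := hA
  obtain ⟨χB, ρB, hB1, hB2⟩ := hB
  let W : κ → X → X → Prop := fun k a y =>
    y ∈ B ∧ χB y = k ∧ ∃ z' ∈ A, χA z' = k ∧ ρA z' = a ∧ dist z' y ≤ s
  have hW : ∀ k a y y', W k a y → W k a y' → ρB y = ρB y' := by
    rintro k a y y' ⟨hy, hk, z, hz, -, hza, hzy⟩ ⟨hy', hk', z', hz', -, hza', hzy'⟩
    refine hB1 y hy y' hy' (hk.trans hk'.symm) ?_
    have h1 := hA2 z hz
    have h2 := hA2 z' hz'
    rw [hza] at h1
    rw [hza'] at h2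
    have h3 := dist_triangle4 y z a z'
    have h4 := dist_triangle y z' y'
    rw [dist_comm y z, dist_comm a z'] at h3
    linarith
  let ρ' : κ → X → X := fun k a => if h : ∃ y, W k a y then ρB h.choose else a
  have hρ' : ∀ k a y, W k a y → ρ' k a = ρB y := by
    intro k a y hy
    have hex : ∃ y, W k a y := ⟨y, hy⟩
    simp only [ρ', dif_pos hex]
    exact hW k a _ _ hex.choose_spec hy
  refine ⟨fun z => if z ∈ B then χB z else χA z,
    fun z => if z ∈ B then ρB z else ρ' (χA z) (ρA z), ?_, ?_⟩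
  · intro z hz z' hz' e hd
    by_cases h : z ∈ B <;> by_cases h' : z' ∈ B <;> simp only [h, h', if_true, if_false] at e ⊢
    · exact hB1 z h z' h' e (by linarith)
    · have hz'A : z' ∈ A := hz'.resolve_right h'
      exact (hρ' _ _ z ⟨h, e, z', hz'A, rfl, rfl, by rwa [dist_comm]⟩).symm
    · have hzA : z ∈ A := hz.resolve_right h
      exact hρ' _ _ z' ⟨h', e.symm, z, hzA, rfl, rfl, hd⟩
    · rw [hA1 z (hz.resolve_right h) z' (hz'.resolve_right h') e hd, e]
  · intro z hz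
    by_cases h : z ∈ B <;> simp only [h, if_true, if_false]
    · linarith [hB2 z h]
    · have hzA : z ∈ A := hz.resolve_right h
      by_cases hex : ∃ y, W (χA z) (ρA z) y
      · obtain ⟨y, hy⟩ := hex
        rw [hρ' _ _ y hy]
        obtain ⟨hyB, -, z', hz', -, hza, hzy⟩ := hy
        have h1 := hA2 z hzA
        have h2 := hA2 z' hz'
        rw [hza] at h2
        have h3 := hB2 y hyB
        have h4 := dist_triangle4 z (ρA z) z' y
        have h5 := dist_triangle z y (ρB y)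
        rw [dist_comm (ρA z) z'] at h4
        linarith
      · simp only [ρ', dif_neg hex]
        linarith [hA2 z hzA]

lemma col_clusters [Nonempty κ] {Z Y : Set X} {Λ σ D : ℝ} (hσ : σ ≤ Λ)
    (hY : ∀ y ∈ Y, ∀ y' ∈ Y, dist y y' ≤ 3 * Λ → y = y')
    (h : ∀ y ∈ Y, Col κ (Z ∩ closedBall y Λ) σ D) :
    Col κ {z ∈ Z | ∃ y ∈ Y, dist z y ≤ Λ} σ D := by
  classical
  choose! χ ρ h1 h2 using h
  have : ∀ z ∈ {z ∈ Z | ∃ y ∈ Y, dist z y ≤ Λ}, ∃ y ∈ Y, dist z y ≤ Λ := fun z hz => hz.2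
  by_cases hX : Nonempty X
  · choose! c hc1 hc2 using this
    refine ⟨fun z => χ (c z) z, fun z => ρ (c z) z, ?_, ?_⟩
    · intro z hz z' hz' e hd
      have hcc : c z = c z' := by
        refine hY _ (hc1 z hz) _ (hc1 z' hz') ?_
        have := dist_triangle4 (c z) z z' (c z')
        rw [dist_comm (c z) z] at this
        linarith [hc2 z hz, hc2 z' hz']
      simp only [← hcc] at e ⊢
      exact h1 (c z) (hc1 z hz) z ⟨hz.1, hc2 z hz⟩ z' ⟨hz'.1, by rw [hcc]; exact hc2 z' hz'⟩ e hd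
    · intro z hz
      exact h2 (c z) (hc1 z hz) z ⟨hz.1, hc2 z hz⟩
  · exact ⟨fun _ => Classical.arbitrary κ, id, fun z => (hX ⟨z⟩).elim, fun z => (hX ⟨z⟩).elim⟩

/-- The recursively defined constants. -/
noncomputable def dseq (C : ℝ) : ℕ → ℝ
  | 0 => 0
  | N + 1 => 2 * dseq C N + 1 + C * (2 * dseq C N + 2)

lemma dseq_nonneg {C : ℝ} (hC : 1 ≤ C) : ∀ N, 0 ≤ dseq C N
  | 0 => le_rfl
  | N + 1 => by
    have := dseq_nonneg hC N
    have h0 : 0 ≤ C := by linarith
    unfold dseq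
    positivity

lemma exists_maximal_separated (Z : Finset X) {t : ℝ} (ht : 0 ≤ t) :
    ∃ Y : Finset X, Y ⊆ Z ∧ (∀ y ∈ Y, ∀ y' ∈ Y, dist y y' ≤ t → y = y') ∧
      ∀ z ∈ Z, ∃ y ∈ Y, dist z y ≤ t := by
  classical
  obtain ⟨Y, hY, hmax⟩ := (Z.powerset.filter fun Y : Finset X =>
    ∀ y ∈ Y, ∀ y' ∈ Y, dist y y' ≤ t → y = y').exists_max_image Finset.card ⟨∅, by simp⟩
  rw [Finset.mem_filter, Finset.mem_powerset] at hY
  refine ⟨Y, hY.1, hY.2, fun z hz => ?_⟩
  by_contra hn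
  push Not at hn
  have hzY : z ∉ Y := fun h => by
    have := hn z h
    rw [dist_self] at this
    linarith
  have := hmax (insert z Y) (by
    rw [Finset.mem_filter, Finset.mem_powerset]
    refine ⟨Finset.insert_subset hz hY.1, ?_⟩
    intro y hy y' hy' hd
    rw [Finset.mem_insert] at hy hy'
    rcases hy with rfl | hy <;> rcases hy' with rfl | hy'
    · rfl
    · exact absurd hd (not_le.2 (hn y' hy'))
    · rw [dist_comm] at hd
      exact absurd hd (not_le.2 (hn y hy))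
    · exact hY.2 y hy y' hy' hd)
  rw [Finset.card_insert_of_notMem hzY] at this
  omega

theorem col_induct [Nonempty κ] {C s Λ : ℝ} (hC : 1 ≤ C) (hs : 0 < s) :
    ∀ (N : ℕ), dseq C N * s ≤ Λ → ∀ Z : Finset X,
      (∀ y ∈ Z, ∀ σ, s ≤ σ → σ ≤ Λ → Col κ ((Z : Set X) ∩ closedBall y Λ) σ (C * σ)) →
      (∀ z ∈ Z, ∀ S : Finset X, S ⊆ Z → (∀ a ∈ S, dist a z ≤ 3 * Λ) →
        (∀ a ∈ S, ∀ b ∈ S, dist a b ≤ Λ → a = b) → S.card ≤ N) →
      Col κ (Z : Set X) s (dseq C N * s) := by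
  classical
  intro N
  induction N with
  | zero =>
    intro hΛ Z _ h2
    have hΛ0 : 0 ≤ Λ := by simpa [dseq] using hΛ
    have : Z = ∅ := by
      by_contra hne
      obtain ⟨z, hz⟩ := Finset.nonempty_iff_ne_empty.2 hne
      have := h2 z hz {z} (by simpa using hz) (by simp; linarith) (by simp)
      simp at this
    subst this
    exact ⟨fun _ => Classical.arbitrary κ, id, by simp, by simp⟩
  | succ N ih =>
    intro hΛ Z h1 h2
    have hd := dseq_nonneg hC N
    have hds : 0 ≤ dseq C N * s := by positivity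
    have hσΛ : (2 * dseq C N + 2) * s ≤ Λ := by
      refine le_trans ?_ hΛ
      refine mul_le_mul_of_nonneg_right ?_ hs.le
      rw [dseq]
      nlinarith
    have hΛ0 : 0 ≤ Λ := le_trans (by positivity) hσΛ
    obtain ⟨Y, hYZ, hY1, hY2⟩ := exists_maximal_separated Z (t := 3 * Λ) (by positivity)
    have hB := col_clusters (κ := κ) (Z := (Z : Set X)) (Y := (Y : Set X)) hσΛ hY1
      fun y hy => h1 y (hYZ hy) _ (by nlinarith) hσΛ
    set Z' : Finset X := Z.filter fun z => ¬ ∃ y ∈ Y, dist z y ≤ Λ with hZ'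
    have hZ'Z : Z' ⊆ Z := Finset.filter_subset _ _
    have hA := ih (by nlinarith) Z' (fun y hy σ a b => (h1 y (hZ'Z hy) σ a b).mono
      (inter_subset_inter_left _ (by exact_mod_cast hZ'Z)) le_rfl le_rfl) (by
        intro z hz S hS hS1 hS2
        obtain ⟨y, hy, hzy⟩ := hY2 z (hZ'Z hz)
        have hfar : ∀ a ∈ S, ¬ dist a y ≤ Λ := fun a ha hd =>
          (Finset.mem_filter.1 (hS ha)).2 ⟨y, hy, hd⟩
        have hyS : y ∉ S := fun h => hfar y h (by rwa [dist_self])
        have := h2 z (hZ'Z hz) (insert y S) (Finset.insert_subset (hYZ hy) (hS.trans hZ'Z))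
          (by
            intro a ha
            rcases Finset.mem_insert.1 ha with rfl | ha
            · rwa [dist_comm]
            · exact hS1 a ha)
          (by
            intro a ha b hb hd
            rw [Finset.mem_insert] at ha hb
            rcases ha with rfl | ha <;> rcases hb with rfl | hb
            · rfl
            · rw [dist_comm] at hd
              exact absurd hd (hfar b hb)
            · exact absurd hd (hfar a ha)
            · exact hS2 a ha b hb hd)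
        rw [Finset.card_insert_of_notMem hyS] at this
        omega)
    have hC0 : 0 ≤ C := by linarith
    refine (hA.union hB hs.le hds (by positivity) (by linarith)).mono ?_ le_rfl ?_
    · intro z hz
      by_cases h : ∃ y ∈ Y, dist z y ≤ Λ
      · exact Or.inr ⟨hz, h⟩
      · exact Or.inl (Finset.mem_coe.2 (Finset.mem_filter.2 ⟨hz, h⟩))
    · apply le_of_eq
      rw [dseq]
      ring

/-- The colouring of Euclidean space. -/
theorem col_euclid (m : ℕ) {σ : ℝ} (hσ : 0 < σ) :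
    Col (Fin (m + 1)) (univ : Set (EuclideanSpace ℝ (Fin m))) σ (2 * (m + 1) ^ 2 * σ) := by
  classical
  have hm : (0 : ℝ) < m + 1 := by positivity
  have hex : ∀ w : EuclideanSpace ℝ (Fin m), ∃ k : Fin (m + 1),
      ∀ i, ⌊w i / (2 * σ) + 1 / 2⌋ % (m + 1 : ℕ) ≠ (k : ℕ) := by
    intro w
    by_contra hn
    push Not at hn
    choose f hf using hn
    have hinj : Function.Injective f := by
      intro k k' e
      have h1 := hf k
      rw [e, hf k'] at h1
      exact Fin.ext (by exact_mod_cast h1.symm)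
    have := Fintype.card_le_of_injective f hinj
    simp at this
  choose χ hχ using hex
  refine ⟨χ, fun w => WithLp.toLp 2 fun i =>
    2 * σ * ((χ w : ℕ) + (m + 1) * ⌊(w i / (2 * σ) - (χ w : ℕ)) / (m + 1)⌋), ?_, ?_⟩
  · have key : ∀ w w' : EuclideanSpace ℝ (Fin m), χ w = χ w' → dist w w' ≤ σ → ∀ i,
        ⌊(w i / (2 * σ) - (χ w : ℕ)) / (m + 1)⌋ ≤ ⌊(w' i / (2 * σ) - (χ w : ℕ)) / (m + 1)⌋ := by
      intro w w' _ hd i
      by_contra hn
      set j := ⌊(w i / (2 * σ) - (χ w : ℕ)) / (m + 1)⌋ with hj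
      have h1 : (w' i / (2 * σ) - (χ w : ℕ)) / (m + 1) < j := Int.floor_lt.1 (not_le.1 hn)
      have h2 : (j : ℝ) ≤ (w i / (2 * σ) - (χ w : ℕ)) / (m + 1) := Int.floor_le _
      rw [div_lt_iff₀ hm] at h1
      rw [le_div_iff₀ hm] at h2
      have h3 : |w i - w' i| ≤ σ := by
        have := PiLp.dist_apply_le w w' i
        rw [Real.dist_eq] at this
        linarith
      have h4 : w i / (2 * σ) - w' i / (2 * σ) ≤ 1 / 2 := by
        rw [← sub_div, div_le_iff₀ (by positivity)]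
        linarith [le_abs_self (w i - w' i)]
      have h5 : ⌊w i / (2 * σ) + 1 / 2⌋ = ((χ w : ℕ) : ℤ) + j * ((m + 1 : ℕ) : ℤ) := by
        rw [Int.floor_eq_iff]
        push_cast
        constructor <;> linarith
      apply hχ w i
      rw [h5, Int.add_mul_emod_self_right]
      exact Int.emod_eq_of_lt (by positivity) (by exact_mod_cast (χ w).2)
    intro w _ w' _ e hd
    refine congrArg (WithLp.toLp 2) (funext fun i => ?_)
    have h1 := key w w' e hd i
    have h2 := key w' w e.symm (by rwa [dist_comm]) i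
    rw [← e] at h2 ⊢
    rw [le_antisymm h1 h2]
  · intro w _
    rw [EuclideanSpace.dist_eq]
    refine Real.sqrt_le_iff.2 ⟨by positivity, ?_⟩
    have hi : ∀ i, dist (w i) (2 * σ * ((χ w : ℕ) +
        (m + 1) * ⌊(w i / (2 * σ) - (χ w : ℕ)) / (m + 1)⌋)) ^ 2 ≤ (2 * σ * (m + 1)) ^ 2 := by
      intro i
      refine pow_le_pow_left₀ dist_nonneg ?_ 2
      have h1 := Int.floor_le ((w i / (2 * σ) - (χ w : ℕ)) / (m + 1))
      have h2 := Int.lt_floor_add_one ((w i / (2 * σ) - (χ w : ℕ)) / (m + 1))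
      set j := ⌊(w i / (2 * σ) - (χ w : ℕ)) / (m + 1)⌋
      rw [div_lt_iff₀ hm, sub_lt_iff_lt_add, div_lt_iff₀ (by positivity)] at h2
      rw [le_div_iff₀ hm, le_sub_iff_add_le, le_div_iff₀ (by positivity)] at h1
      rw [Real.dist_eq, abs_le]
      constructor <;> nlinarith
    refine (Finset.sum_le_sum fun i _ => hi i).trans ?_
    simp only [Finset.sum_const, Finset.card_univ, Fintype.card_fin, nsmul_eq_mul]
    have : (m : ℝ) ≤ (m + 1) ^ 2 := by nlinarith
    calc (m : ℝ) * (2 * σ * (m + 1)) ^ 2 ≤ (m + 1) ^ 2 * (2 * σ * (m + 1)) ^ 2 :=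
          mul_le_mul_of_nonneg_right this (by positivity)
      _ = (2 * (m + 1) ^ 2 * σ) ^ 2 := by ring

/-- Packing bound. -/
theorem exists_packing (E : Type*) [NormedAddCommGroup E] [NormedSpace ℝ E] [ProperSpace E] :
    ∃ N : ℕ, ∀ {ι : Type*} (S : Finset ι) (f : ι → E) (Λ : ℝ), 0 < Λ → (∀ a ∈ S, ‖f a‖ ≤ 6 * Λ) →
      (∀ a ∈ S, ∀ b ∈ S, ‖f a - f b‖ < Λ → a = b) → S.card ≤ N := by
  obtain ⟨T, -, hT, hcov⟩ := finite_cover_balls_of_compact (isCompact_closedBall (0 : E) 6)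
    (e := 1 / 2) (by norm_num)
  refine ⟨hT.toFinset.card, fun S f Λ hΛ h1 h2 => ?_⟩
  have : ∀ a ∈ S, ∃ c ∈ T, Λ⁻¹ • f a ∈ ball c (1 / 2) := by
    intro a ha
    have : Λ⁻¹ • f a ∈ closedBall (0 : E) 6 := by
      rw [mem_closedBall_zero_iff, norm_smul, Real.norm_eq_abs, abs_of_pos (by positivity),
        inv_mul_le_iff₀ hΛ]
      linarith [h1 a ha]
    simpa using hcov this
  choose! c hc1 hc2 using this
  refine Finset.card_le_card_of_injOn c (fun a ha => by simpa using hc1 a ha) ?_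
  intro a ha b hb e
  refine h2 a ha b hb ?_
  have h3 := hc2 a ha
  have h4 := hc2 b hb
  rw [← e] at h4
  rw [mem_ball] at h3 h4
  have h5 := dist_triangle_right (Λ⁻¹ • f a) (Λ⁻¹ • f b) (c a)
  rw [dist_eq_norm, ← smul_sub, norm_smul, Real.norm_eq_abs, abs_of_pos (by positivity)] at h5
  have h6 : Λ⁻¹ * ‖f a - f b‖ < 1 := by linarith
  rwa [inv_mul_lt_iff₀ hΛ, mul_one] at h6

end Pool.Agent.P.MP_e0d06b_an
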