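import Mathlib

/-!
Planes, the crawl lemma and upward propagation of two-sided flatness.
-/

open Set Metric

namespace Pool.Agent.P.MP_e0d06b_an

/-- An isometric parametrisation `J` of a plane with the orthogonal projection `π`. -/
structure Pl (E X : Type*) [NormedAddCommGroup E] [NormedSpace ℝ E] [NormedAddCommGroup X]
    [NormedSpace ℝ X] where
  J : E →L[ℝ] X
  π : X →L[ℝ] E
  πJ : ∀ v, π (J v) = v
  normJ : ∀ v, ‖J v‖ = ‖v‖
  pyth : ∀ u, ‖u‖ ^ 2 = ‖π u‖ ^ 2 + ‖u - J (π u)‖ ^ 2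

section basic

variable {E X : Type*} [NormedAddCommGroup E] [NormedSpace ℝ E] [NormedAddCommGroup X]
  [NormedSpace ℝ X]

/-- Distance to the plane. -/
def Pl.N (p : Pl E X) (u : X) : ℝ := ‖u - p.J (p.π u)‖

lemma Pl.N_nonneg (p : Pl E X) (u : X) : 0 ≤ p.N u := norm_nonneg _

lemma Pl.pyth' (p : Pl E X) (u : X) : ‖u‖ ^ 2 = ‖p.π u‖ ^ 2 + p.N u ^ 2 := p.pyth u

lemma Pl.N_le (p : Pl E X) (u : X) : p.N u ≤ ‖u‖ := by
  have := p.pyth' u
  exact abs_le_of_sq_le_sq' (by nlinarith [sq_nonneg ‖p.π u‖]) (norm_nonneg _) |>.2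

lemma Pl.π_le (p : Pl E X) (u : X) : ‖p.π u‖ ≤ ‖u‖ := by
  have := p.pyth' u
  exact abs_le_of_sq_le_sq' (by nlinarith [sq_nonneg (p.N u)]) (norm_nonneg _) |>.2

lemma Pl.N_add (p : Pl E X) (u v : X) : p.N (u + v) ≤ p.N u + p.N v := by
  unfold Pl.N
  have : u + v - p.J (p.π (u + v)) = (u - p.J (p.π u)) + (v - p.J (p.π v)) := by
    simp only [map_add]; abel
  rw [this]; exact norm_add_le _ _

lemma Pl.N_smul (p : Pl E X) (c : ℝ) (u : X) : p.N (c • u) = |c| * p.N u := by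
  unfold Pl.N
  rw [map_smul, map_smul, ← smul_sub, norm_smul, Real.norm_eq_abs]

lemma Pl.N_neg (p : Pl E X) (u : X) : p.N (-u) = p.N u := by
  have := p.N_smul (-1) u
  simpa using this

lemma Pl.N_sub (p : Pl E X) (u v : X) : p.N (u - v) ≤ p.N u + p.N v := by
  rw [sub_eq_add_neg, ← p.N_neg v]; exact p.N_add _ _

lemma Pl.norm_le (p : Pl E X) (u : X) : ‖u‖ ≤ ‖p.π u‖ + p.N u := by
  have := p.pyth' u
  exact abs_le_of_sq_le_sq' (by nlinarith [norm_nonneg (p.π u), p.N_nonneg u])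
    (add_nonneg (norm_nonneg _) (p.N_nonneg _)) |>.2

lemma Pl.pyth_sub (p : Pl E X) (u : X) (w : E) :
    ‖u - p.J w‖ ^ 2 = ‖p.π u - w‖ ^ 2 + p.N u ^ 2 := by
  have h := p.pyth (u - p.J w)
  rw [map_sub, p.πJ] at h
  rw [h, Pl.N, map_sub]
  congr 3
  abel

/-- One-sided flatness. -/
def Good (M : Set X) (x : X) (r : ℝ) (p : Pl E X) (h : ℝ) : Prop :=
  ∀ z ∈ M, ‖z - x‖ ≤ r → p.N (z - x) ≤ h

variable (E) in
/-- Density of `M` along some plane. -/
def Fat (M : Set X) (y : X) (s η : ℝ) : Prop :=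
  ∃ p : Pl E X, ∀ w : E, ‖w‖ ≤ s → ∃ z ∈ M, ‖z - (y + p.J w)‖ ≤ η

/-- Homogeneity: a bound on a sphere gives a bound everywhere. -/
lemma N_le_of_sphere (p q : Pl E X) {s κ : ℝ} (hs : 0 < s)
    (h : ∀ v : E, ‖v‖ = s → p.N (q.J v) ≤ κ * s) (v : E) : p.N (q.J v) ≤ κ * ‖v‖ := by
  by_cases hv : v = 0
  · subst hv; simp [Pl.N]
  have hv' : 0 < ‖v‖ := norm_pos_iff.2 hv
  have h1 := h ((s / ‖v‖) • v) (by
    rw [norm_smul, Real.norm_eq_abs, abs_of_pos (by positivity), div_mul_cancel₀ _ hv'.ne'])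
  rw [map_smul, p.N_smul, abs_of_pos (by positivity), div_mul_eq_mul_div, div_le_iff₀ hv'] at h1
  have : s * p.N (q.J v) ≤ s * (κ * ‖v‖) := by linarith
  exact le_of_mul_le_mul_left this hs

end basic

variable {E X : Type*} [NormedAddCommGroup E] [NormedSpace ℝ E] [FiniteDimensional ℝ E]
  [NormedAddCommGroup X] [InnerProductSpace ℝ X]

lemma crawl_step {M : Set X} {x y : X} {r h δ : ℝ} {p : Pl E X} (hδ : δ ≤ 1 / 256) (hr : 0 < r)
    (hh : 0 < h) (hhr : h ≤ δ * r) (hG : Good M x r p h) (hy : y ∈ M)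
    (hF : Fat E M y (10 * h) (20 * δ * h)) (hyx : ‖y - x‖ ≤ r - 200 * δ * h) (a : E)
    (ha : ‖a‖ ≤ 40 * δ * h) : ∃ y' ∈ M, ‖y' - x‖ ≤ r ∧ ‖p.π (y' - y) - a‖ ≤ 20 * δ * h := by
  have hδ0 : 0 < δ := by
    by_contra hn
    nlinarith [not_lt.1 hn]
  have hδh : 0 < δ * h := mul_pos hδ0 hh
  have hδh' : δ * h ≤ h / 256 := by nlinarith
  have hh' : h ≤ r / 256 := by nlinarith
  obtain ⟨q, hq⟩ := hF
  have hNy : p.N (y - x) ≤ h := hG y hy (by linarith)
  have aux : ∀ v : E, ‖v‖ = 10 * h → ‖(y - x) + q.J v‖ ^ 2 ≤ ‖y - x‖ ^ 2 + ‖q.J v‖ ^ 2 →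
      p.N (q.J v) ≤ 1 / 4 * (10 * h) := by
    intro v hv hle
    obtain ⟨z, hz, hzv⟩ := hq v hv.le
    rw [q.normJ, hv] at hle
    have h1 : ‖y - x‖ ^ 2 ≤ (r - 200 * δ * h) ^ 2 := pow_le_pow_left₀ (norm_nonneg _) hyx 2
    have h2 : (r - 200 * δ * h) ^ 2 + (10 * h) ^ 2 ≤ (r - 20 * δ * h) ^ 2 := by
      have : h * h ≤ h * (δ * r) := mul_le_mul_of_nonneg_left hhr hh.le
      have h3 : δ * h * (δ * h) ≤ δ * h * (r / 256) :=
        mul_le_mul_of_nonneg_left (by linarith) hδh.le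
      nlinarith
    have h3 : ‖(y - x) + q.J v‖ ≤ r - 20 * δ * h :=
      abs_le_of_sq_le_sq' (by linarith) (by linarith) |>.2
    have h4 : ‖z - x‖ ≤ r := by
      have e : z - x = (z - (y + q.J v)) + ((y - x) + q.J v) := by abel
      rw [e]
      exact (norm_add_le _ _).trans (by linarith)
    have h5 := hG z hz h4
    have e : q.J v = (z - x) - (y - x) - (z - (y + q.J v)) := by abel
    have h6 := p.N_sub ((z - x) - (y - x)) (z - (y + q.J v))
    have h7 := p.N_sub (z - x) (y - x)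
    have h8 := p.N_le (z - (y + q.J v))
    rw [← e] at h6
    linarith
  have hN : ∀ v : E, p.N (q.J v) ≤ 1 / 4 * ‖v‖ := by
    refine N_le_of_sphere p q (s := 10 * h) (by positivity) fun v hv => ?_
    by_cases hc : ‖(y - x) + q.J v‖ ^ 2 ≤ ‖y - x‖ ^ 2 + ‖q.J v‖ ^ 2
    · exact aux v hv hc
    · have h1 := aux (-v) (by rwa [norm_neg]) (by
        have := parallelogram_law_with_norm ℝ (y - x) (q.J v)
        rw [map_neg, norm_neg, ← sub_eq_add_neg]
        nlinarith [not_le.1 hc])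
      rwa [map_neg, p.N_neg] at h1
  have hlow : ∀ v : E, ‖v‖ ≤ 2 * ‖p.π (q.J v)‖ := by
    intro v
    have h1 := p.norm_le (q.J v)
    rw [q.normJ] at h1
    linarith [hN v, norm_nonneg (p.π (q.J v))]
  let A : E →ₗ[ℝ] E := (p.π.comp q.J).toLinearMap
  have hinj : Function.Injective A := by
    rw [injective_iff_map_eq_zero]
    intro v hv
    have h1 := hlow v
    have h2 : p.π (q.J v) = 0 := hv
    rw [h2, norm_zero, mul_zero] at h1
    exact norm_le_zero_iff.1 h1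
  obtain ⟨v, hv⟩ := LinearMap.injective_iff_surjective.1 hinj a
  have hv' : p.π (q.J v) = a := hv
  have hvn : ‖v‖ ≤ 80 * δ * h := by
    have := hlow v
    rw [hv'] at this
    linarith
  obtain ⟨z, hz, hzv⟩ := hq v (by linarith)
  refine ⟨z, hz, ?_, ?_⟩
  · have e : z - x = (z - (y + q.J v)) + (y - x) + q.J v := by abel
    rw [e]
    refine (norm_add₃_le).trans ?_
    rw [q.normJ]
    linarith
  · have e : p.π (z - y) - a = p.π (z - (y + q.J v)) := by
      rw [← hv', ← map_sub]; congr 1; abel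
    rw [e]
    exact (p.π_le _).trans hzv

/-- The crawl lemma. -/
theorem crawl {M : Set X} {x : X} {r h δ : ℝ} {p : Pl E X} (hδ : δ ≤ 1 / 256) (hr : 0 < r)
    (hh : 0 < h) (hhr : h ≤ δ * r) (hx : x ∈ M) (hG : Good M x r p h)
    (hF : ∀ y ∈ M, Fat E M y (10 * h) (20 * δ * h)) (w : E) (hw : ‖w‖ ≤ r) :
    ∃ z ∈ M, ‖z - x‖ ≤ r ∧ ‖z - (x + p.J w)‖ ^ 2 ≤ h ^ 2 * (1 + (256 * δ) ^ 2) := by
  have hδ0 : 0 < δ := by
    by_contra hn
    nlinarith [not_lt.1 hn]
  have hδh : 0 < δ * h := mul_pos hδ0 hh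
  have hδh' : δ * h ≤ h / 256 := by nlinarith
  have hh' : h ≤ r / 256 := by nlinarith
  set τ : ℝ := 236 * δ * h / r with hτ
  have hτ0 : 0 ≤ τ := by positivity
  have hτr : τ * r = 236 * δ * h := div_mul_cancel₀ _ hr.ne'
  have hτ1 : τ ≤ 1 := by
    rw [hτ, div_le_one hr]; linarith
  set w' : E := (1 - τ) • w with hw'
  have hw'n : ‖w'‖ ≤ r - 236 * δ * h := by
    rw [hw', norm_smul, Real.norm_eq_abs, abs_of_nonneg (by linarith)]
    nlinarith [mul_le_mul_of_nonneg_left hw (sub_nonneg.2 hτ1)]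
  have hww' : ‖w' - w‖ ≤ 236 * δ * h := by
    have : w' - w = (-τ) • w := by rw [hw']; module
    rw [this, norm_smul, Real.norm_eq_abs, abs_neg, abs_of_nonneg hτ0, ← hτr]
    exact mul_le_mul_of_nonneg_left hw hτ0
  obtain ⟨K, hK⟩ := exists_nat_gt (r / (20 * δ * h))
  have hKpos : (0 : ℝ) < K := lt_trans (by positivity) hK
  have hstep : ‖(1 / (K : ℝ)) • w'‖ ≤ 20 * δ * h := by
    rw [norm_smul, Real.norm_eq_abs, abs_of_pos (by positivity), one_div, inv_mul_le_iff₀ hKpos]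
    rw [div_lt_iff₀ (by positivity)] at hK
    linarith
  have main : ∀ j : ℕ, j ≤ K → ∃ y ∈ M, ‖y - x‖ ≤ r - 200 * δ * h ∧
      ‖p.π (y - x) - ((j : ℝ) / K) • w'‖ ≤ 20 * δ * h := by
    intro j
    induction j with
    | zero =>
      intro _
      refine ⟨x, hx, ?_, ?_⟩
      · rw [sub_self, norm_zero]; linarith
      · simp only [sub_self, map_zero, Nat.cast_zero, zero_div, zero_smul, norm_zero]
        positivity
    | succ j ih =>
      intro hj
      obtain ⟨y, hy, hy1, hy2⟩ := ih (Nat.le_of_succ_le hj)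
      obtain ⟨y', hy', h1, h2⟩ := crawl_step hδ hr hh hhr hG hy (hF y hy) hy1
        ((((j + 1 : ℕ) : ℝ) / K) • w' - p.π (y - x)) (by
          have e : (((j + 1 : ℕ) : ℝ) / K) • w' - p.π (y - x)
              = (1 / (K : ℝ)) • w' - (p.π (y - x) - ((j : ℝ) / K) • w') := by
            push_cast
            rw [add_div]
            module
          rw [e]
          exact (norm_sub_le _ _).trans (by linarith))
      have e : p.π (y' - y) - ((((j + 1 : ℕ) : ℝ) / K) • w' - p.π (y - x))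
          = p.π (y' - x) - (((j + 1 : ℕ) : ℝ) / K) • w' := by
        simp only [map_sub]; abel
      rw [e] at h2
      refine ⟨y', hy', ?_, h2⟩
      have h3 : ‖(((j + 1 : ℕ) : ℝ) / K) • w'‖ ≤ ‖w'‖ := by
        rw [norm_smul, Real.norm_eq_abs, abs_of_nonneg (by positivity)]
        refine mul_le_of_le_one_left (norm_nonneg _) ?_
        rw [div_le_one hKpos]
        exact_mod_cast hj
      have h4 : ‖p.π (y' - x)‖ ≤ r - 216 * δ * h := by
        have := norm_add_le (p.π (y' - x) - (((j + 1 : ℕ) : ℝ) / K) • w')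
          ((((j + 1 : ℕ) : ℝ) / K) • w')
        rw [sub_add_cancel] at this
        linarith
      have h5 := hG y' hy' h1
      have h6 := p.pyth' (y' - x)
      have h7 : ‖p.π (y' - x)‖ ^ 2 ≤ (r - 216 * δ * h) ^ 2 :=
        pow_le_pow_left₀ (norm_nonneg _) h4 2
      have h8 : p.N (y' - x) ^ 2 ≤ h ^ 2 := pow_le_pow_left₀ (p.N_nonneg _) h5 2
      have h9 : (r - 216 * δ * h) ^ 2 + h ^ 2 ≤ (r - 200 * δ * h) ^ 2 := by
        have : h * h ≤ h * (δ * r) := mul_le_mul_of_nonneg_left hhr hh.le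
        have h3 : δ * h * (δ * h) ≤ δ * h * (r / 65536) :=
          mul_le_mul_of_nonneg_left (by linarith) hδh.le
        nlinarith
      exact abs_le_of_sq_le_sq' (by linarith) (by linarith) |>.2
  obtain ⟨y, hy, hy1, hy2⟩ := main K le_rfl
  rw [div_self hKpos.ne', one_smul] at hy2
  refine ⟨y, hy, by linarith, ?_⟩
  have e : y - (x + p.J w) = (y - x) - p.J w := by abel
  rw [e, p.pyth_sub]
  have h1 : ‖p.π (y - x) - w‖ ≤ 256 * δ * h := by
    have := norm_add_le (p.π (y - x) - w') (w' - w)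
    rw [sub_add_sub_cancel] at this
    linarith
  have h2 := pow_le_pow_left₀ (norm_nonneg _) h1 2
  have h3 := pow_le_pow_left₀ (p.N_nonneg _) (hG y hy (by linarith)) 2
  nlinarith

/-- Upward propagation of fatness. -/
theorem fat_all {M : Set X} {δ R s₀ : ℝ} (hδ0 : 0 < δ) (hδ : δ ≤ 1 / 256) (hs₀ : 0 < s₀)
    (hL : ∀ x ∈ M, ∀ r, 0 < r → r < R → ∃ p : Pl E X, Good M x r p (δ * r))
    (h0 : ∀ s, 0 < s → s < R → s ≤ s₀ → ∀ y ∈ M, Fat E M y s (2 * δ * s)) :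
    ∀ r, 0 < r → r < R → ∀ y ∈ M, Fat E M y r (2 * δ * r) := by
  have main : ∀ k : ℕ, ∀ r, 0 < r → r < R → r ≤ 2 ^ k * s₀ → ∀ y ∈ M, Fat E M y r (2 * δ * r) := by
    intro k
    induction k with
    | zero => simpa using h0
    | succ k ih =>
      intro r hr hrR hrk y hy
      obtain ⟨p, hp⟩ := hL y hy r hr hrR
      have h1 : 10 * (δ * r) ≤ r / 2 := by nlinarith
      refine ⟨p, fun w hw => ?_⟩
      obtain ⟨z, hz, -, hzw⟩ := crawl hδ hr (mul_pos hδ0 hr) le_rfl hy hp (fun y' hy' => by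
        have := ih (10 * (δ * r)) (by positivity) (by linarith)
          (by rw [pow_succ] at hrk; linarith) y' hy'
        have e : 2 * δ * (10 * (δ * r)) = 20 * δ * (δ * r) := by ring
        rwa [e] at this) w hw
      refine ⟨z, hz, abs_le_of_sq_le_sq' (hzw.trans ?_) (by positivity) |>.2⟩
      have h2 : (256 * δ) ^ 2 ≤ 1 := by nlinarith
      nlinarith [sq_nonneg (δ * r)]
  intro r hr hrR
  obtain ⟨k, hk⟩ := pow_unbounded_of_one_lt (r / s₀) (one_lt_two (α := ℝ))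
  exact main k r hr hrR (by rw [div_lt_iff₀ hs₀] at hk; exact hk.le)

end Pool.Agent.P.MP_e0d06b_an
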