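import Pool.Agent.Lib.helper5.DegreeC
import Pool.Agent.P.MP_e0d06b_an.Crawl

/-!
The local degree of the projection: it forces fatness and it spreads.
-/

open Set Metric Filter Topology
open Pool.Agent.Lib.helper5

namespace Pool.Agent.P.MP_e0d06b_an

variable {E X : Type*} [NormedAddCommGroup E] [NormedSpace ℝ E]
  [NormedAddCommGroup X] [NormedSpace ℝ X]

/-- A parametrisation of a piece of `M`, quantitatively injective on the unit ball. -/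
structure Chart (M : Set X) (ψ : E → X) (ζ : ℝ) : Prop where
  cont : Continuous ψ
  mem : ∀ t, ψ t ∈ M
  inv : ∀ t t', ‖t‖ ≤ 1 → ‖t'‖ ≤ 1 → ‖ψ t - ψ t'‖ ≤ ζ → ‖t - t'‖ ≤ 1 / 10

/-- The part of the unit ball mapped into the ball of radius `s` around `ψ t₀`. -/
def UU (ψ : E → X) (t₀ : E) (s : ℝ) : Set E := {t | ‖t‖ < 1 ∧ ‖ψ t - ψ t₀‖ < s}

omit [NormedSpace ℝ E] [NormedSpace ℝ X] in
lemma isOpen_UU {ψ : E → X} (hψ : Continuous ψ) (t₀ : E) (s : ℝ) : IsOpen (UU ψ t₀ s) :=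
  (isOpen_lt continuous_norm continuous_const).inter
    (isOpen_lt (hψ.sub continuous_const).norm continuous_const)

omit [NormedSpace ℝ E] [NormedSpace ℝ X] in
lemma isBounded_UU (ψ : E → X) (t₀ : E) (s : ℝ) : Bornology.IsBounded (UU ψ t₀ s) :=
  (isBounded_ball (x := (0 : E)) (r := 1)).subset fun _ ht => mem_ball_zero_iff.2 ht.1

omit [NormedSpace ℝ E] [NormedSpace ℝ X] in
lemma closure_UU {M : Set X} {ψ : E → X} {ζ : ℝ} (hc : Chart M ψ ζ) {t₀ : E} {s : ℝ}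
    (ht₀ : ‖t₀‖ ≤ 1 / 2) (hs : s ≤ ζ) {t : E} (ht : t ∈ closure (UU ψ t₀ s)) :
    ‖t - t₀‖ ≤ 1 / 10 ∧ ‖ψ t - ψ t₀‖ ≤ s := by
  have hψ := hc.cont
  have hcl : IsClosed {t : E | ‖t - t₀‖ ≤ 1 / 10 ∧ ‖ψ t - ψ t₀‖ ≤ s} :=
    (isClosed_le (continuous_id.sub continuous_const).norm continuous_const).inter
      (isClosed_le (hψ.sub continuous_const).norm continuous_const)
  refine closure_minimal (fun t ht => ?_) hcl ht
  exact ⟨hc.inv t t₀ ht.1.le (by linarith) (ht.2.le.trans hs), ht.2.le⟩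

omit [NormedSpace ℝ E] [NormedSpace ℝ X] in
lemma norm_lt_one_of_closure {t t₀ : E} (ht₀ : ‖t₀‖ ≤ 1 / 2) (h : ‖t - t₀‖ ≤ 1 / 10) :
    ‖t‖ < 1 := by
  have := norm_add_le (t - t₀) t₀
  rw [sub_add_cancel] at this
  linarith

omit [NormedSpace ℝ E] [NormedSpace ℝ X] in
lemma frontier_UU {M : Set X} {ψ : E → X} {ζ : ℝ} (hc : Chart M ψ ζ) {t₀ : E} {s : ℝ}
    (ht₀ : ‖t₀‖ ≤ 1 / 2) (hs : s ≤ ζ) {t : E} (ht : t ∈ frontier (UU ψ t₀ s)) :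
    ‖ψ t - ψ t₀‖ = s := by
  rw [(isOpen_UU hc.cont t₀ s).frontier_eq] at ht
  obtain ⟨h1, h2⟩ := closure_UU hc ht₀ hs ht.1
  refine le_antisymm h2 (not_lt.1 fun h => ht.2 ⟨norm_lt_one_of_closure ht₀ h1, h⟩)

lemma frontier_norm {M : Set X} {ψ : E → X} {ζ : ℝ} (hc : Chart M ψ ζ) {t₀ : E} {s δ : ℝ}
    (ht₀ : ‖t₀‖ ≤ 1 / 2) (hs0 : 0 < s) (hs : s ≤ ζ) (hδ0 : 0 < δ) (hδ : δ < 1) {p : Pl E X}
    (hG : Good M (ψ t₀) s p (δ * s)) {t : E} (ht : t ∈ frontier (UU ψ t₀ s)) :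
    (1 - δ) * s < ‖p.π (ψ t - ψ t₀)‖ := by
  have h1 := frontier_UU hc ht₀ hs ht
  have h2 := hG _ (hc.mem t) h1.le
  have h3 := p.pyth' (ψ t - ψ t₀)
  rw [h1] at h3
  have h4 := pow_le_pow_left₀ (p.N_nonneg _) h2 2
  refine lt_of_pow_lt_pow_left₀ 2 (norm_nonneg _) ?_
  have : 0 < δ * (1 - δ) * s ^ 2 := by
    have : 0 < 1 - δ := by linarith
    positivity
  nlinarith

variable [FiniteDimensional ℝ E] [MeasurableSpace E] [BorelSpace E] [Nontrivial E]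

/-- Non-zero degree gives fatness. -/
lemma fat_of_deg {M : Set X} {ψ : E → X} {ζ : ℝ} (hc : Chart M ψ ζ) {t₀ : E} {s δ : ℝ}
    (ht₀ : ‖t₀‖ ≤ 1 / 2) (hs0 : 0 < s) (hs : s ≤ ζ) (hδ0 : 0 < δ) (hδ : δ < 1) {p : Pl E X}
    (hG : Good M (ψ t₀) s p (δ * s)) (hd : deg (fun t => p.π (ψ t - ψ t₀)) (UU ψ t₀ s) ≠ 0)
    (w : E) (hw : ‖w‖ ≤ s) : ∃ z ∈ M, ‖z - ψ t₀‖ ≤ s ∧ ‖z - (ψ t₀ + p.J w)‖ ≤ 2 * δ * s := by
  have hψ := hc.cont
  set a : E := (1 - δ) • w with ha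
  have han : ‖a‖ ≤ (1 - δ) * s := by
    rw [ha, norm_smul, Real.norm_eq_abs, abs_of_pos (by linarith)]
    exact mul_le_mul_of_nonneg_left hw (by linarith)
  have h1 : deg (fun t => p.π (ψ t - ψ t₀)) (UU ψ t₀ s)
      = deg (fun t => p.π (ψ t - ψ t₀) - a) (UU ψ t₀ s) := by
    refine deg_homotopy (by fun_prop) (by fun_prop) (isOpen_UU hψ _ _) (isBounded_UU _ _ _)
      fun t ht τ hτ h0 => ?_
    have h2 := frontier_norm hc ht₀ hs0 hs hδ0 hδ hG ht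
    have h3 : p.π (ψ t - ψ t₀) = τ • a := by
      rw [← sub_eq_zero, ← h0]; module
    rw [h3, norm_smul, Real.norm_eq_abs, abs_of_nonneg hτ.1] at h2
    nlinarith [hτ.1, hτ.2, norm_nonneg a]
  rw [h1] at hd
  obtain ⟨t, ht, ht0⟩ := exists_zero_of_deg_ne_zero (by fun_prop) (isOpen_UU hψ _ _)
    (isBounded_UU _ _ _) hd
  obtain ⟨-, h2⟩ := closure_UU hc ht₀ hs ht
  refine ⟨ψ t, hc.mem t, h2, ?_⟩
  have h3 := hG _ (hc.mem t) h2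
  have h4 : p.π (ψ t - ψ t₀) = a := sub_eq_zero.1 ht0
  have e : ψ t - (ψ t₀ + p.J w) = ((ψ t - ψ t₀) - p.J (p.π (ψ t - ψ t₀))) + p.J ((-δ) • w) := by
    rw [h4, ha, map_smul, map_smul]; module
  rw [e]
  refine (norm_add_le _ _).trans ?_
  rw [p.normJ, norm_smul, Real.norm_eq_abs, abs_neg, abs_of_pos hδ0]
  have h5 : δ * ‖w‖ ≤ δ * s := mul_le_mul_of_nonneg_left hw hδ0.le
  have h6 : ‖(ψ t - ψ t₀) - p.J (p.π (ψ t - ψ t₀))‖ ≤ δ * s := h3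
  linarith

/-- Non-zero degree spreads to nearby points. -/
lemma deg_spread {M : Set X} {ψ : E → X} {ζ : ℝ} (hc : Chart M ψ ζ) {t₀ t₁ : E} {s δ : ℝ}
    (ht₀ : ‖t₀‖ ≤ 1 / 2) (ht₁ : ‖t₁‖ ≤ 1 / 2) (hs0 : 0 < s) (hs : s ≤ ζ) (hδ0 : 0 < δ)
    (hδ : δ ≤ 1 / 256) {p q : Pl E X} (hG : Good M (ψ t₀) s p (δ * s))
    (hG₁ : Good M (ψ t₁) s q (δ * s)) (hclose : ‖ψ t₀ - ψ t₁‖ ≤ s / 10)
    (hd : deg (fun t => p.π (ψ t - ψ t₀)) (UU ψ t₀ s) ≠ 0) :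
    deg (fun t => q.π (ψ t - ψ t₁)) (UU ψ t₁ s) ≠ 0 := by
  have hψ := hc.cont
  have hδs : δ * s ≤ s / 256 := by nlinarith
  have hδs0 : 0 < δ * s := by positivity
  have hN : ∀ v : E, q.N (p.J v) ≤ 1 / 10 * ‖v‖ := by
    refine N_le_of_sphere q p (s := s / 2) (by positivity) fun v hv => ?_
    obtain ⟨z, hz, -, hzv⟩ := fat_of_deg hc ht₀ hs0 hs hδ0 (by linarith) hG hd v (by linarith)
    have h1 : ‖z - ψ t₁‖ ≤ s := by
      have e : z - ψ t₁ = (z - (ψ t₀ + p.J v)) + (ψ t₀ - ψ t₁) + p.J v := by abel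
      rw [e]
      refine norm_add₃_le.trans ?_
      rw [p.normJ]
      linarith
    have h2 := hG₁ z hz h1
    have h3 := hG₁ _ (hc.mem t₀) (by linarith)
    have e : p.J v = (z - ψ t₁) - (ψ t₀ - ψ t₁) - (z - (ψ t₀ + p.J v)) := by abel
    have h6 := q.N_sub ((z - ψ t₁) - (ψ t₀ - ψ t₁)) (z - (ψ t₀ + p.J v))
    have h7 := q.N_sub (z - ψ t₁) (ψ t₀ - ψ t₁)
    have h8 := q.N_le (z - (ψ t₀ + p.J v))
    rw [← e] at h6
    linarith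
  have hlow : ∀ v : E, 9 / 10 * ‖v‖ ≤ ‖q.π (p.J v)‖ := by
    intro v
    have h1 := q.norm_le (p.J v)
    rw [p.normJ] at h1
    linarith [hN v]
  let A : E →ₗ[ℝ] E := (q.π.comp p.J).toLinearMap
  have hinj : Function.Injective A := by
    rw [injective_iff_map_eq_zero]
    intro v hv
    have h1 := hlow v
    have h2 : q.π (p.J v) = 0 := hv
    rw [h2, norm_zero] at h1
    exact norm_le_zero_iff.1 (by linarith)
  have hU'o := isOpen_UU hψ t₀ (s / 2)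
  have hU'b := isBounded_UU ψ t₀ (s / 2)
  have e0 : deg (fun t => p.π (ψ t - ψ t₀)) (UU ψ t₀ s)
      = deg (fun t => p.π (ψ t - ψ t₀)) (UU ψ t₀ (s / 2)) := by
    refine deg_excise (by fun_prop) (isOpen_UU hψ _ _) (isBounded_UU _ _ _) hU'o
      (fun t ht => ⟨ht.1, by linarith [ht.2]⟩) fun t ht h0 => ?_
    obtain ⟨h1, h2⟩ := closure_UU hc ht₀ hs ht
    refine ⟨norm_lt_one_of_closure ht₀ h1, ?_⟩
    have h3 := p.norm_le (ψ t - ψ t₀)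
    have h4 := hG _ (hc.mem t) h2
    have h0' : p.π (ψ t - ψ t₀) = 0 := h0
    rw [h0', norm_zero] at h3
    linarith
  have e1 : deg (fun t => q.π (ψ t - ψ t₁)) (UU ψ t₁ s)
      = deg (fun t => q.π (ψ t - ψ t₁)) (UU ψ t₀ (s / 2)) := by
    refine deg_excise (by fun_prop) (isOpen_UU hψ _ _) (isBounded_UU _ _ _) hU'o
      (fun t ht => ⟨ht.1, ?_⟩) fun t ht h0 => ?_
    · have := norm_add_le (ψ t - ψ t₀) (ψ t₀ - ψ t₁)
      rw [sub_add_sub_cancel] at this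
      linarith [ht.2]
    · obtain ⟨h1, h2⟩ := closure_UU hc ht₁ hs ht
      refine ⟨norm_lt_one_of_closure ht₁ h1, ?_⟩
      have h3 := q.norm_le (ψ t - ψ t₁)
      have h4 := hG₁ _ (hc.mem t) h2
      have h0' : q.π (ψ t - ψ t₁) = 0 := h0
      rw [h0', norm_zero] at h3
      have := norm_sub_le (ψ t - ψ t₁) (ψ t₀ - ψ t₁)
      rw [sub_sub_sub_cancel_right] at this
      linarith
  have hfr : ∀ t ∈ frontier (UU ψ t₀ (s / 2)), p.N (ψ t - ψ t₀) ≤ δ * s ∧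
      s / 2 - δ * s ≤ ‖p.π (ψ t - ψ t₀)‖ := by
    intro t ht
    have h1 := frontier_UU hc ht₀ (by linarith) ht
    have h2 := hG _ (hc.mem t) (by linarith)
    have h3 := p.norm_le (ψ t - ψ t₀)
    exact ⟨h2, by linarith⟩
  have e2 : deg (fun t => q.π (ψ t - ψ t₁)) (UU ψ t₀ (s / 2))
      = deg (fun t => A (p.π (ψ t - ψ t₀))) (UU ψ t₀ (s / 2)) := by
    refine deg_homotopy (by fun_prop) (A.continuous_of_finiteDimensional.comp (by fun_prop))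
      hU'o hU'b fun t ht τ hτ h0 => ?_
    obtain ⟨h1, h2⟩ := hfr t ht
    have h3 := hlow (p.π (ψ t - ψ t₀))
    have hA : A (p.π (ψ t - ψ t₀)) = q.π (p.J (p.π (ψ t - ψ t₀))) := rfl
    have e : q.π (p.J (p.π (ψ t - ψ t₀))) = (-(1 - τ)) •
        q.π (((ψ t - ψ t₀) - p.J (p.π (ψ t - ψ t₀))) + (ψ t₀ - ψ t₁)) := by
      have e' : ((ψ t - ψ t₀) - p.J (p.π (ψ t - ψ t₀))) + (ψ t₀ - ψ t₁)
          = (ψ t - ψ t₁) - p.J (p.π (ψ t - ψ t₀)) := by abel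
      rw [e', map_sub q.π (ψ t - ψ t₁), ← sub_eq_zero, ← h0, Function.comp_apply, hA]
      module
    rw [e, norm_smul, Real.norm_eq_abs, abs_neg, abs_of_nonneg (sub_nonneg.2 hτ.2)] at h3
    have h4 := q.π_le (((ψ t - ψ t₀) - p.J (p.π (ψ t - ψ t₀))) + (ψ t₀ - ψ t₁))
    have h5 := norm_add_le ((ψ t - ψ t₀) - p.J (p.π (ψ t - ψ t₀))) (ψ t₀ - ψ t₁)
    have h6 : ‖(ψ t - ψ t₀) - p.J (p.π (ψ t - ψ t₀))‖ ≤ δ * s := h1
    have h7 := mul_le_of_le_one_left (norm_nonneg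
      (q.π (((ψ t - ψ t₀) - p.J (p.π (ψ t - ψ t₀))) + (ψ t₀ - ψ t₁))))
      (show 1 - τ ≤ 1 by linarith [hτ.1])
    linarith
  rw [e1, e2]
  rw [e0] at hd
  refine deg_linear_ne_zero (F := fun t => p.π (ψ t - ψ t₀)) (by fun_prop) hU'o hU'b
    (fun t ht h0 => ?_) A hinj hd
  have h2 := (hfr t ht).2
  rw [h0, norm_zero] at h2
  linarith

end Pool.Agent.P.MP_e0d06b_an
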