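import Pool.Agent.P.MP_e0d06b_an.Local1
import Pool.Agent.P.MP_e0d06b_an.Colour

/-!
Some local degree does not vanish: the nerve argument.
-/

open Set Metric Filter Topology MeasureTheory
open Pool.Agent.Lib.helper5

namespace Pool.Agent.P.MP_e0d06b_an

variable {E X : Type*} [NormedAddCommGroup E] [NormedSpace ℝ E]
  [NormedAddCommGroup X] [NormedSpace ℝ X]

/-- Tent function of a set. -/
noncomputable def tent (s₁ : ℝ) (C : Set X) (x : X) : ℝ := max 0 (1 - 3 / s₁ * infDist x C)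

omit [NormedSpace ℝ X] in
lemma tent_nonneg (s₁ : ℝ) (C : Set X) (x : X) : 0 ≤ tent s₁ C x := le_max_left _ _

omit [NormedSpace ℝ X] in
lemma continuous_tent (s₁ : ℝ) (C : Set X) : Continuous (tent s₁ C) :=
  continuous_const.max (continuous_const.sub (continuous_const.mul (continuous_infDist_pt C)))

omit [NormedSpace ℝ X] in
lemma tent_le {s₁ : ℝ} (hs : 0 < s₁) (C : Set X) {x y : X} (h : ‖x - y‖ ≤ s₁ / 10) :
    tent s₁ C x ≤ tent s₁ C y + 3 / 10 := by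
  have h1 : infDist y C ≤ infDist x C + dist y x := infDist_le_infDist_add_dist
  rw [dist_comm, dist_eq_norm] at h1
  have h2 : 3 / s₁ * infDist y C ≤ 3 / s₁ * (infDist x C + s₁ / 10) :=
    mul_le_mul_of_nonneg_left (by linarith) (by positivity)
  have h3 : 3 / s₁ * (infDist x C + s₁ / 10) = 3 / s₁ * infDist x C + 3 / 10 := by
    field_simp
  have h4 := tent_nonneg s₁ C y
  have h5 : 1 - 3 / s₁ * infDist y C ≤ tent s₁ C y := le_max_right _ _
  exact max_le (by linarith) (by linarith)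

omit [NormedSpace ℝ X] in
lemma exists_of_tent_pos {s₁ : ℝ} (hs : 0 < s₁) {C : Set X} (hC : C.Nonempty) {x : X}
    (h : 0 < tent s₁ C x) : ∃ z ∈ C, dist x z < s₁ / 3 := by
  rw [← infDist_lt_iff hC]
  have h1 : 0 < 1 - 3 / s₁ * infDist x C := by
    rcases lt_max_iff.1 h with h | h
    · exact absurd h (lt_irrefl _)
    · exact h
  rw [sub_pos, div_mul_eq_mul_div, div_lt_one hs] at h1
  linarith

omit [NormedSpace ℝ X] in
lemma le_tent {s₁ : ℝ} (hs : 0 < s₁) {C : Set X} {x z : X} (hz : z ∈ C) (h : dist x z ≤ s₁ / 10) :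
    7 / 10 ≤ tent s₁ C x := by
  have h1 : tent s₁ C z = 1 := by simp [tent, infDist_zero_of_mem hz]
  have h2 := tent_le hs C (x := z) (y := x) (by rwa [← dist_eq_norm, dist_comm])
  linarith

variable [FiniteDimensional ℝ E] [MeasurableSpace E] [BorelSpace E]

/-- General position. -/
lemma exists_general_position {ι : Type*} (I : Finset ι) (t : ι → E) :
    ∃ b : E, ‖b‖ ≤ 1 / 10 ∧ ∀ σ ⊆ I, σ.card ≤ Module.finrank ℝ E → ∀ c : ι → ℝ,
      (∀ α ∈ σ, 0 ≤ c α) → ∑ α ∈ σ, c α • (t α - b) = 0 → ∀ α ∈ σ, c α = 0 := by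
  classical
  set μ : Measure E := Measure.addHaar
  have hnull : μ (⋃ σ ∈ I.powerset.filter (fun σ => σ.card ≤ Module.finrank ℝ E),
      (affineSpan ℝ (σ.image t : Set E) : Set E)) = 0 := by
    refine (measure_biUnion_null_iff (Finset.countable_toSet _)).2 fun σ hσ => ?_
    refine Measure.addHaar_affineSubspace μ _ fun htop => ?_
    have hσ' := (Finset.mem_filter.1 hσ).2
    have hne := AffineSubspace.nonempty_of_affineSpan_eq_top ℝ E E htop
    have hcard : σ.card = (σ.card - 1) + 1 := by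
      have : σ.Nonempty := by simpa using hne
      have := this.card_pos
      omega
    have h1 := finrank_vectorSpan_image_finset_le ℝ t σ hcard
    rw [AffineSubspace.vectorSpan_eq_top_of_affineSpan_eq_top ℝ E E htop, finrank_top] at h1
    omega
  have hpos : 0 < μ (ball (0 : E) (1 / 10)) := measure_ball_pos μ _ (by norm_num)
  obtain ⟨b, hb, hbn⟩ : ∃ b ∈ ball (0 : E) (1 / 10),
      b ∉ ⋃ σ ∈ I.powerset.filter (fun σ => σ.card ≤ Module.finrank ℝ E),
        (affineSpan ℝ (σ.image t : Set E) : Set E) := by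
    by_contra hn
    push Not at hn
    exact hpos.ne' (measure_mono_null hn hnull)
  refine ⟨b, (mem_ball_zero_iff.1 hb).le, fun σ hσ hcard c hc h0 => ?_⟩
  by_contra hn
  have hS : 0 < ∑ α ∈ σ, c α := by
    refine lt_of_le_of_ne (Finset.sum_nonneg hc) fun h => hn ?_
    exact (Finset.sum_eq_zero_iff_of_nonneg hc).1 h.symm
  apply hbn
  refine mem_biUnion (x := σ) (Finset.mem_coe.2 (Finset.mem_filter.2
    ⟨Finset.mem_powerset.2 hσ, hcard⟩)) ?_
  have hb' : b = σ.centerMass c t := by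
    simp only [smul_sub, Finset.sum_sub_distrib, ← Finset.sum_smul] at h0
    rw [Finset.centerMass, sub_eq_zero.1 h0, smul_smul, inv_mul_cancel₀ hS.ne', one_smul]
  rw [hb']
  exact convexHull_subset_affineSpan _ (Finset.centerMass_mem_convexHull σ hc hS
    fun i hi => Finset.mem_coe.2 (Finset.mem_image_of_mem t hi))

variable [Nontrivial E]

/-- The degree on one top-dimensional piece vanishes. -/
lemma deg_piece {M : Set X} {ψ : E → X} {ζ : ℝ} (hc : Chart M ψ ζ) {s s₁ D δ : ℝ}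
    (hs0 : 0 < s) (hs : s ≤ ζ) (hδ0 : 0 < δ) (hδ : δ < 1) (hs₁ : 0 < s₁) (hδs : δ * s ≤ s₁ / 10)
    (hD : D ≤ (1 - δ) * s) {ι : Type*} (σ : Finset ι) (C : ι → Set X) (v : ι → E)
    (hGP : ∀ α₀ ∈ σ, ∀ c : ι → ℝ, (∀ α ∈ σ, 0 ≤ c α) → c α₀ = 0 → ∑ α ∈ σ, c α • v α = 0 →
      ∀ α ∈ σ, c α = 0) {W : Set E}
    (hW : W = {t | ‖t‖ < 1 / 2 ∧ ∀ α ∈ σ, 0 < tent s₁ (C α) (ψ t)})
    (hbig : ∀ t ∈ closure W, ∃ α ∈ σ, 7 / 10 ≤ tent s₁ (C α) (ψ t))
    {t₀ : E} (ht₀ : ‖t₀‖ ≤ 1 / 5) (h0 : ∑ α ∈ σ, tent s₁ (C α) (ψ t₀) • v α = 0)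
    (ht₀W : t₀ ∈ closure W) (hdiam : ∀ t ∈ closure W, ‖ψ t - ψ t₀‖ ≤ D) {p : Pl E X}
    (hG : Good M (ψ t₀) s p (δ * s)) (hd : deg (fun t => p.π (ψ t - ψ t₀)) (UU ψ t₀ s) = 0) :
    deg (fun t => ∑ α ∈ σ, tent s₁ (C α) (ψ t) • v α) W = 0 := by
  classical
  have hψ := hc.cont
  have hct : ∀ α, Continuous (tent s₁ (C α)) := fun α => continuous_tent _ _
  have hWo : IsOpen W := by
    have : W = {t : E | ‖t‖ < 1 / 2} ∩ ⋂ α ∈ σ, {t | 0 < tent s₁ (C α) (ψ t)} := by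
      rw [hW]; ext t; simp
    rw [this]
    exact (isOpen_lt continuous_norm continuous_const).inter
      (isOpen_biInter_finset fun α _ => isOpen_lt continuous_const ((hct α).comp hψ))
  have hDs : D < s := by nlinarith
  have hWU : W ⊆ UU ψ t₀ s := fun t ht =>
    ⟨by rw [hW] at ht; linarith [ht.1], (hdiam t (subset_closure ht)).trans_lt hDs⟩
  have hWb : Bornology.IsBounded W := (isBounded_UU ψ t₀ s).subset hWU
  have hsmall : ∀ t ∈ closure (UU ψ t₀ s), ‖t‖ < 1 / 2 := by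
    intro t ht
    have h1 := (closure_UU hc (by linarith) hs ht).1
    have := norm_add_le (t - t₀) t₀
    rw [sub_add_cancel] at this
    linarith
  have hfr : ∀ t ∈ frontier W, ∃ α ∈ σ, tent s₁ (C α) (ψ t) = 0 := by
    intro t ht
    rw [hWo.frontier_eq] at ht
    by_contra hn
    push Not at hn
    apply ht.2
    rw [hW]
    exact ⟨hsmall t (closure_mono hWU ht.1),
      fun α hα => lt_of_le_of_ne (tent_nonneg _ _ _) (hn α hα).symm⟩
  set β : ι → ℝ := fun α => tent s₁ (C α) (ψ t₀) with hβ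
  have hβpos : ∀ α ∈ σ, 0 < β α := by
    intro α hα
    refine lt_of_le_of_ne (tent_nonneg _ _ _) fun h => ?_
    obtain ⟨α₁, hα₁, h1⟩ := hbig t₀ ht₀W
    have := hGP α hα β (fun _ _ => tent_nonneg _ _ _) h.symm h0 α₁ hα₁
    simp only [hβ] at this
    linarith
  have hEQ : ∀ c : ι → ℝ, ∑ α ∈ σ, (c α * β α) • v α = 0 → ∀ α ∈ σ, ∀ α' ∈ σ, c α = c α' := by
    intro c hc0
    obtain ⟨α₁, hα₁, -⟩ := hbig t₀ ht₀W
    obtain ⟨α₀, hα₀, hmin⟩ := σ.exists_min_image c ⟨α₁, hα₁⟩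
    have h1 := hGP α₀ hα₀ (fun α => (c α - c α₀) * β α)
      (fun α hα => mul_nonneg (sub_nonneg.2 (hmin α hα)) (hβpos α hα).le) (by simp) (by
        simp only [sub_mul, sub_smul, Finset.sum_sub_distrib, hc0, mul_smul (c α₀),
          ← Finset.smul_sum]
        rw [h0]; simp)
    have h2 : ∀ α ∈ σ, c α = c α₀ := fun α hα =>
      sub_eq_zero.1 ((mul_eq_zero.1 (h1 α hα)).resolve_right (hβpos α hα).ne')
    intro α hα α' hα'
    rw [h2 α hα, h2 α' hα']
  have hnear : ∀ t ∈ closure (UU ψ t₀ s), ‖ψ t - (ψ t₀ + p.J (p.π (ψ t - ψ t₀)))‖ ≤ s₁ / 10 := by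
    intro t ht
    have h1 := hG _ (hc.mem t) (closure_UU hc (by linarith) hs ht).2
    have e : ψ t - (ψ t₀ + p.J (p.π (ψ t - ψ t₀))) = (ψ t - ψ t₀) - p.J (p.π (ψ t - ψ t₀)) := by
      abel
    rw [e]
    exact h1.trans hδs
  have e1 : deg (fun t => ∑ α ∈ σ, tent s₁ (C α) (ψ t) • v α) W
      = deg (fun t => ∑ α ∈ σ, (tent s₁ (C α) (ψ t) * β α) • v α) W := by
    refine deg_homotopy (by fun_prop) (by fun_prop) hWo hWb fun t ht τ hτ hz => ?_
    obtain ⟨α₀, hα₀, h1⟩ := hfr t ht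
    obtain ⟨α₁, hα₁, h2⟩ := hbig t (frontier_subset_closure ht)
    have hcoef : ∀ α ∈ σ, 0 < (1 - τ) + τ * β α := by
      intro α hα
      have := hβpos α hα
      rcases hτ.1.eq_or_lt with h | h
      · rw [← h]; norm_num
      · have := mul_pos h this
        linarith [hτ.2]
    have h3 := hGP α₀ hα₀ (fun α => tent s₁ (C α) (ψ t) * ((1 - τ) + τ * β α))
      (fun α hα => mul_nonneg (tent_nonneg _ _ _) (hcoef α hα).le) (by simp [h1]) (by
        rw [← hz, Finset.smul_sum, Finset.smul_sum, ← Finset.sum_add_distrib]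
        refine Finset.sum_congr rfl fun α _ => ?_
        module) α₁ hα₁
    rcases mul_eq_zero.1 h3 with h | h
    · linarith
    · exact (hcoef α₁ hα₁).ne' h
  set g : E → E := fun w => ∑ α ∈ σ, (tent s₁ (C α) (ψ t₀ + p.J w) * β α) • v α with hg
  have hgc : Continuous g := by
    simp only [hg]
    fun_prop
  have e2 : deg (fun t => ∑ α ∈ σ, (tent s₁ (C α) (ψ t) * β α) • v α) W
      = deg (fun t => g (p.π (ψ t - ψ t₀))) W := by
    refine deg_homotopy (by fun_prop) (by fun_prop) hWo hWb fun t ht τ hτ hz => ?_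
    obtain ⟨α₀, hα₀, h1⟩ := hfr t ht
    obtain ⟨α₁, hα₁, h2⟩ := hbig t (frontier_subset_closure ht)
    have h3 := hEQ (fun α => (1 - τ) * tent s₁ (C α) (ψ t)
      + τ * tent s₁ (C α) (ψ t₀ + p.J (p.π (ψ t - ψ t₀)))) (by
        rw [← hz, hg, Finset.smul_sum, Finset.smul_sum, ← Finset.sum_add_distrib]
        refine Finset.sum_congr rfl fun α _ => ?_
        module) α₀ hα₀ α₁ hα₁
    have h4 := hnear t (closure_mono hWU (frontier_subset_closure ht))
    have h5 := tent_le hs₁ (C α₁) h4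
    have h6 := tent_le hs₁ (C α₀) (by rwa [norm_sub_rev] at h4)
    nlinarith [hτ.1, hτ.2]
  rw [e1, e2]
  refine deg_comp_eq_zero (F := fun t => p.π (ψ t - ψ t₀)) (by fun_prop) hgc (isOpen_UU hψ _ _)
    (isBounded_UU _ _ _) hWo hWU (c := D) (fun t ht => ?_) (fun t ht hz => ⟨?_, ?_⟩) hd
  · exact hD.trans_lt (frontier_norm hc (by linarith) hs0 hs hδ0 hδ hG ht)
  · exact (p.π_le _).trans (hdiam t ht)
  · intro t' ht' e
    rw [hW]
    refine ⟨hsmall t' ht', fun α hα => ?_⟩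
    obtain ⟨α₁, hα₁, h2⟩ := hbig t ht
    have h3 := hEQ (fun α => tent s₁ (C α) (ψ t₀ + p.J (p.π (ψ t - ψ t₀)))) hz α hα α₁ hα₁
    have h5 := tent_le hs₁ (C α₁) (hnear t (closure_mono hWU ht))
    have h4 := hnear t' ht'
    have e' : p.π (ψ t' - ψ t₀) = p.π (ψ t - ψ t₀) := e
    rw [e', norm_sub_rev] at h4
    have h6 := tent_le hs₁ (C α) h4
    linarith

/-- Not all local degrees vanish. -/
theorem exists_deg_ne_zero {M : Set X} {ψ : E → X} {ζ : ℝ} (hc : Chart M ψ ζ) {s s₁ D δ : ℝ}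
    (hs0 : 0 < s) (hs : s ≤ ζ) (hδ0 : 0 < δ) (hδ : δ < 1) (hs₁ : 0 < s₁) (hδs : δ * s ≤ s₁ / 10)
    (hD : 2 * D + s₁ ≤ (1 - δ) * s)
    (hcol : ∀ Z : Finset X, (Z : Set X) ⊆ M → Col (Fin (Module.finrank ℝ E + 1)) (Z : Set X) s₁ D)
    (hall : ∀ t : E, ‖t‖ ≤ 1 / 2 → ∃ p : Pl E X, Good M (ψ t) s p (δ * s) ∧
      deg (fun t' => p.π (ψ t' - ψ t)) (UU ψ t s) = 0) : False := by
  classical
  have hψ := hc.cont
  set d := Module.finrank ℝ E with hd
  obtain ⟨T, hTK, hT, hcov⟩ := finite_cover_balls_of_compact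
    ((isCompact_closedBall (0 : E) (1 / 2)).image hψ) (e := s₁ / 10) (by positivity)
  set Z : Finset X := hT.toFinset with hZ
  have hZT : ∀ z, z ∈ Z ↔ z ∈ T := fun z => hT.mem_toFinset
  obtain ⟨χ, ρ, hρ1, hρ2⟩ := hcol Z fun z hz => by
    obtain ⟨t, -, rfl⟩ := hTK ((hZT z).1 hz)
    exact hc.mem t
  set I : Finset (Fin (d + 1) × X) := Z.image fun z => (χ z, ρ z) with hI
  set C : Fin (d + 1) × X → Set X := fun α => {z | z ∈ Z ∧ (χ z, ρ z) = α} with hC
  have hex : ∀ α ∈ I, ∃ t : E, ‖t‖ ≤ 1 / 2 ∧ ψ t ∈ C α := by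
    intro α hα
    obtain ⟨z, hz, rfl⟩ := Finset.mem_image.1 hα
    obtain ⟨t, ht, rfl⟩ := hTK ((hZT z).1 hz)
    exact ⟨t, mem_closedBall_zero_iff.1 ht, hz, rfl⟩
  choose! u hu1 hu2 using hex
  obtain ⟨b, hb, hGP⟩ := exists_general_position I u
  have hct : ∀ α, Continuous (tent s₁ (C α)) := fun α => continuous_tent _ _
  have hCdiam : ∀ α, ∀ z ∈ C α, ∀ z' ∈ C α, dist z z' ≤ 2 * D := by
    intro α z hz z' hz'
    have h1 := hρ2 z hz.1
    have h2 := hρ2 z' hz'.1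
    have h3 : ρ z = ρ z' := congrArg Prod.snd (hz.2.trans hz'.2.symm)
    have h4 := dist_triangle_right z z' (ρ z)
    rw [← h3] at h2
    linarith
  have hclose : ∀ α ∈ I, ∀ x x' : X, 0 < tent s₁ (C α) x → 0 < tent s₁ (C α) x' →
      ‖x - x'‖ ≤ 2 * D + s₁ := by
    intro α hα x x' hx hx'
    obtain ⟨z, hz, h1⟩ := exists_of_tent_pos hs₁ ⟨_, hu2 α hα⟩ hx
    obtain ⟨z', hz', h2⟩ := exists_of_tent_pos hs₁ ⟨_, hu2 α hα⟩ hx'
    have h3 := hCdiam α z hz z' hz'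
    have h4 := dist_triangle4 x z z' x'
    rw [dist_comm z' x', dist_eq_norm] at h4
    linarith
  have hDζ : 2 * D + s₁ ≤ ζ := by nlinarith
  have hnear : ∀ α ∈ I, ∀ t : E, ‖t‖ ≤ 1 / 2 → 0 < tent s₁ (C α) (ψ t) → ‖u α - t‖ ≤ 1 / 10 := by
    intro α hα t ht hpos
    refine hc.inv _ _ (by linarith [hu1 α hα]) (by linarith) (le_trans ?_ hDζ)
    refine hclose α hα _ _ ?_ hpos
    linarith [le_tent hs₁ (hu2 α hα) (x := ψ (u α)) (by rw [dist_self]; positivity)]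
  have hbig : ∀ t : E, ‖t‖ ≤ 1 / 2 → ∃ α ∈ I, 7 / 10 ≤ tent s₁ (C α) (ψ t) := by
    intro t ht
    obtain ⟨z, hz, h1⟩ := mem_iUnion₂.1 (hcov ⟨t, mem_closedBall_zero_iff.2 ht, rfl⟩)
    have hzZ := (hZT z).2 hz
    exact ⟨(χ z, ρ z), Finset.mem_image_of_mem _ hzZ,
      le_tent hs₁ (z := z) ⟨hzZ, rfl⟩ (mem_ball.1 h1).le⟩
  have hmult : ∀ x : X, (I.filter fun α => 0 < tent s₁ (C α) x).card ≤ d + 1 := by
    intro x
    refine (Finset.card_le_card_of_injOn (t := Finset.univ) Prod.fst (fun _ _ => by simp)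
      ?_).trans (by simp)
    intro α hα α' hα' e
    obtain ⟨hα1, hα2⟩ := Finset.mem_filter.1 hα
    obtain ⟨hα1', hα2'⟩ := Finset.mem_filter.1 hα'
    obtain ⟨z, hz, h1⟩ := exists_of_tent_pos hs₁ ⟨_, hu2 α hα1⟩ hα2
    obtain ⟨z', hz', h2⟩ := exists_of_tent_pos hs₁ ⟨_, hu2 α' hα1'⟩ hα2'
    have h3 : χ z = χ z' := by
      have a1 : χ z = α.1 := congrArg Prod.fst hz.2
      have a2 : χ z' = α'.1 := congrArg Prod.fst hz'.2
      rw [a1, a2, e]
    have h4 := hρ1 z hz.1 z' hz'.1 h3 (by linarith [dist_triangle_left z z' x])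
    rw [← hz.2, ← hz'.2, h3, h4]
  set G : E → E := fun t => ∑ α ∈ I, tent s₁ (C α) (ψ t) • (u α - b) with hG
  have hGc : Continuous G := by
    simp only [hG]
    fun_prop
  have hhom : ∀ t : E, ‖t‖ ≤ 1 / 2 → ∀ τ ∈ Icc (0 : ℝ) 1, (1 - τ) • G t + τ • (t - b) = 0 →
      ‖t‖ ≤ 1 / 5 := by
    intro t ht τ hτ hz
    set S : ℝ := ∑ α ∈ I, tent s₁ (C α) (ψ t) with hS
    have hS0 : 7 / 10 ≤ S := by
      obtain ⟨α, hα, h⟩ := hbig t ht
      exact h.trans (Finset.single_le_sum (f := fun α => tent s₁ (C α) (ψ t))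
        (fun _ _ => tent_nonneg _ _ _) hα)
    have e : G t = S • (t - b) + ∑ α ∈ I, tent s₁ (C α) (ψ t) • (u α - t) := by
      rw [hS, Finset.sum_smul, ← Finset.sum_add_distrib]
      refine Finset.sum_congr rfl fun α _ => ?_
      module
    have h1 : ‖∑ α ∈ I, tent s₁ (C α) (ψ t) • (u α - t)‖ ≤ S * (1 / 10) := by
      rw [hS, Finset.sum_mul]
      refine norm_sum_le_of_le _ fun α hα => ?_
      rw [norm_smul, Real.norm_eq_abs, abs_of_nonneg (tent_nonneg _ _ _)]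
      rcases (tent_nonneg s₁ (C α) (ψ t)).eq_or_lt with h | h
      · rw [← h]; simp
      · exact mul_le_mul_of_nonneg_left (hnear α hα t ht h) h.le
    have hτ1 : 0 ≤ 1 - τ := sub_nonneg.2 hτ.2
    have h2 : ((1 - τ) * S + τ) • (t - b)
        = (-(1 - τ)) • ∑ α ∈ I, tent s₁ (C α) (ψ t) • (u α - t) := by
      rw [← sub_eq_zero, ← hz, e]; module
    have hpos : 0 < (1 - τ) * S + τ := by nlinarith [hτ.1]
    have h3 := congrArg norm h2
    rw [norm_smul, norm_smul, Real.norm_eq_abs, Real.norm_eq_abs, abs_neg, abs_of_nonneg hτ1,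
      abs_of_pos hpos] at h3
    have h4 : ((1 - τ) * S + τ) * ‖t - b‖ ≤ ((1 - τ) * S + τ) * (1 / 10) := by
      rw [h3]
      nlinarith [mul_le_mul_of_nonneg_left h1 hτ1, hτ.1]
    have h5 := le_of_mul_le_mul_left h4 hpos
    have := norm_add_le (t - b) b
    rw [sub_add_cancel] at this
    linarith
  have hdeg : deg G (ball 0 (1 / 2)) = deg (fun t => t - b) (ball 0 (1 / 2)) := by
    refine deg_homotopy hGc (by fun_prop) isOpen_ball isBounded_ball fun t ht τ hτ hz => ?_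
    rw [frontier_ball _ (by norm_num), mem_sphere_zero_iff_norm] at ht
    linarith [hhom t ht.le τ hτ hz]
  have hdegpos : 0 < deg G (ball 0 (1 / 2)) := by
    rw [hdeg]
    exact deg_id_pos isOpen_ball isBounded_ball (mem_ball_zero_iff.2 (by linarith))
  set W : Finset (Fin (d + 1) × X) → Set E :=
    fun σ => {t | ‖t‖ < 1 / 2 ∧ ∀ α ∈ σ, 0 < tent s₁ (C α) (ψ t)} with hW
  have hWo : ∀ σ, IsOpen (W σ) := by
    intro σ
    have : W σ = {t : E | ‖t‖ < 1 / 2} ∩ ⋂ α ∈ σ, {t | 0 < tent s₁ (C α) (ψ t)} := by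
      rw [hW]; ext t; simp
    rw [this]
    exact (isOpen_lt continuous_norm continuous_const).inter
      (isOpen_biInter_finset fun α _ => isOpen_lt continuous_const ((hct α).comp hψ))
  have hWb : ∀ σ, W σ ⊆ ball 0 (1 / 2) := fun σ t ht => mem_ball_zero_iff.2 ht.1
  have hsupp : ∀ σ ∈ I.powersetCard (d + 1), ∀ t ∈ W σ,
      σ = I.filter fun α => 0 < tent s₁ (C α) (ψ t) := by
    intro σ hσ t ht
    obtain ⟨h1, h2⟩ := Finset.mem_powersetCard.1 hσ
    refine Finset.eq_of_subset_of_card_le (fun α hα => Finset.mem_filter.2 ⟨h1 hα, ht.2 α hα⟩) ?_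
    rw [h2]; exact hmult _
  have hsum := deg_sum hGc isOpen_ball isBounded_ball (I.powersetCard (d + 1)) W
    (fun σ _ => hWo σ) (fun σ _ => hWb σ) (by
      intro σ hσ σ' hσ' hne
      refine disjoint_left.2 fun t ht ht' => hne ?_
      rw [hsupp σ hσ t ht, ← hsupp σ' hσ' t ht']) (by
      intro t ht hz
      rw [closure_ball _ (by norm_num), mem_closedBall_zero_iff] at ht
      have h1 := hhom t ht 0 ⟨le_rfl, zero_le_one⟩ (by simp [hz])
      refine ⟨I.filter fun α => 0 < tent s₁ (C α) (ψ t), Finset.mem_powersetCard.2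
        ⟨Finset.filter_subset _ _, le_antisymm (hmult _) ?_⟩, by linarith,
        fun α hα => (Finset.mem_filter.1 hα).2⟩
      by_contra hn
      obtain ⟨α, hα, h2⟩ := hbig t ht
      have := hGP _ (Finset.filter_subset (fun α => 0 < tent s₁ (C α) (ψ t)) I) (by omega)
        (fun α => tent s₁ (C α) (ψ t)) (fun _ _ => tent_nonneg _ _ _) (by
          rw [← hz, hG]
          refine Finset.sum_filter_of_ne fun α _ h => ?_
          exact lt_of_le_of_ne (tent_nonneg _ _ _) fun h' => h (by rw [← h', zero_smul])) α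
        (Finset.mem_filter.2 ⟨hα, by linarith⟩)
      linarith)
  refine hdegpos.ne' ?_
  rw [hsum]
  refine Finset.sum_eq_zero fun σ hσ => ?_
  obtain ⟨hσI, hσc⟩ := Finset.mem_powersetCard.1 hσ
  have hWbd : Bornology.IsBounded (W σ) := isBounded_ball.subset (hWb σ)
  have hcl1 : ∀ t ∈ closure (W σ), ‖t‖ ≤ 1 / 2 := by
    intro t ht
    have := closure_mono (hWb σ) ht
    rwa [closure_ball _ (by norm_num), mem_closedBall_zero_iff] at this
  have hcl2 : ∀ t ∈ closure (W σ), ∀ α ∈ I, α ∉ σ → tent s₁ (C α) (ψ t) = 0 := by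
    intro t ht α hα hασ
    refine closure_minimal (fun t' ht' => ?_) (isClosed_eq ((hct α).comp hψ) continuous_const) ht
    by_contra hn
    apply hασ
    rw [hsupp σ hσ t' ht']
    exact Finset.mem_filter.2 ⟨hα, lt_of_le_of_ne (tent_nonneg _ _ _) fun h => hn h.symm⟩
  have hcl3 : ∀ t ∈ closure (W σ), G t = ∑ α ∈ σ, tent s₁ (C α) (ψ t) • (u α - b) := by
    intro t ht
    refine (Finset.sum_subset hσI fun α hα hασ => ?_).symm
    rw [hcl2 t ht α hα hασ, zero_smul]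
  have hbig' : ∀ t ∈ closure (W σ), ∃ α ∈ σ, 7 / 10 ≤ tent s₁ (C α) (ψ t) := by
    intro t ht
    obtain ⟨α, hα, h⟩ := hbig t (hcl1 t ht)
    refine ⟨α, ?_, h⟩
    by_contra hn
    linarith [hcl2 t ht α hα hn]
  have hGP' : ∀ α₀ ∈ σ, ∀ c : Fin (d + 1) × X → ℝ, (∀ α ∈ σ, 0 ≤ c α) → c α₀ = 0 →
      ∑ α ∈ σ, c α • (u α - b) = 0 → ∀ α ∈ σ, c α = 0 := by
    intro α₀ hα₀ c hc0 hc1 hc2 α hα
    by_cases h : α = α₀
    · rw [h, hc1]
    · refine hGP (σ.erase α₀) ((Finset.erase_subset _ _).trans hσI)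
        (by rw [Finset.card_erase_of_mem hα₀]; omega) c
        (fun α hα => hc0 α (Finset.mem_of_mem_erase hα)) ?_ α (Finset.mem_erase.2 ⟨h, hα⟩)
      rw [← hc2]
      exact Finset.sum_erase _ (by rw [hc1, zero_smul])
  by_contra hne
  obtain ⟨t₀, ht₀, hz⟩ := exists_zero_of_deg_ne_zero hGc (hWo σ) hWbd hne
  have h1 := hhom t₀ (hcl1 t₀ ht₀) 0 ⟨le_rfl, zero_le_one⟩ (by simp [hz])
  obtain ⟨p, hp, hpd⟩ := hall t₀ (hcl1 t₀ ht₀)
  apply hne
  have e : deg G (W σ) = deg (fun t => ∑ α ∈ σ, tent s₁ (C α) (ψ t) • (u α - b)) (W σ) := by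
    refine deg_homotopy hGc (by fun_prop) (hWo σ) hWbd fun t ht τ _ h0 => ?_
    have ht' := frontier_subset_closure ht
    rw [hcl3 t ht', ← add_smul, sub_add_cancel, one_smul] at h0
    rw [(hWo σ).frontier_eq] at ht
    apply ht.2
    have h2 := hhom t (hcl1 t ht') 0 ⟨le_rfl, zero_le_one⟩ (by simp [hcl3 t ht', h0])
    refine ⟨by linarith, fun α hα => lt_of_le_of_ne (tent_nonneg _ _ _) fun h => ?_⟩
    obtain ⟨α₁, hα₁, h3⟩ := hbig' t ht'
    have := hGP' α hα (fun α => tent s₁ (C α) (ψ t)) (fun _ _ => tent_nonneg _ _ _) h.symm h0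
      α₁ hα₁
    linarith
  rw [e]
  refine deg_piece hc hs0 hs hδ0 hδ hs₁ hδs hD σ C (fun α => u α - b) hGP' rfl hbig' h1
    (by rw [← hcl3 t₀ ht₀, hz]) ht₀ ?_ hp hpd
  intro t ht
  obtain ⟨α, hα, h⟩ := hbig' t₀ ht₀
  refine closure_minimal (fun t' ht' => ?_)
    (isClosed_le (hψ.sub continuous_const).norm continuous_const) ht
  exact hclose α (hσI hα) _ _ (ht'.2 α hα) (by linarith)

end Pool.Agent.P.MP_e0d06b_an
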