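import Pool.Agent.P.MP_e0d06b_an.Local2

/-!
Closed manifolds with small one-sided flatness are two-sided flat at all scales.
-/

open Set Metric Filter Topology MeasureTheory
open Pool.Agent.Lib.helper5

namespace Pool.Agent.P.MP_e0d06b_an

theorem exists_col (m : ℕ) : ∃ d : ℝ, 0 ≤ d ∧ ∀ (X : Type) [NormedAddCommGroup X] [NormedSpace ℝ X]
    (M : Set X) (δ s s₁ : ℝ), 0 < s → 0 < s₁ → d * s₁ ≤ s / 3 → δ * s ≤ s₁ → δ * s ≤ s / 12 →
    (∀ y ∈ M, ∃ p : Pl (EuclideanSpace ℝ (Fin m)) X, Good M y s p (δ * s)) →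
    ∀ Z : Finset X, (Z : Set X) ⊆ M → Col (Fin (m + 1)) (Z : Set X) s₁ (d * s₁) := by
  obtain ⟨N, hN⟩ := exists_packing.{0, 0} (EuclideanSpace ℝ (Fin m))
  have hC : (1 : ℝ) ≤ 2 * (m + 1) ^ 2 + 1 := by nlinarith [sq_nonneg ((m : ℝ) + 1)]
  refine ⟨dseq (2 * (m + 1) ^ 2 + 1) N, dseq_nonneg hC N, ?_⟩
  intro X _ _ M δ s s₁ hs hs₁ h1 h2 h3 hG Z hZ
  refine col_induct hC hs₁ N h1 Z ?_ ?_
  · intro y hy σ hσ1 hσ2
    obtain ⟨p, hp⟩ := hG y (hZ hy)
    obtain ⟨χ, ρ, hρ1, hρ2⟩ := col_euclid m (σ := σ) (by linarith)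
    refine ⟨fun z => χ (p.π (z - y)), fun z => y + p.J (ρ (p.π (z - y))), ?_, ?_⟩
    · intro z _ z' _ e hd
      have := hρ1 _ (mem_univ _) _ (mem_univ _) e (by
        rw [dist_eq_norm, ← map_sub, sub_sub_sub_cancel_right]
        rw [dist_eq_norm] at hd
        exact (p.π_le _).trans hd)
      simp only [this]
    · intro z hz
      have h4 := hp z (hZ hz.1) (by
        have := mem_closedBall.1 hz.2
        rw [dist_eq_norm] at this
        linarith)
      have h5 := hρ2 (p.π (z - y)) (mem_univ _)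
      rw [dist_eq_norm] at h5 ⊢
      have e : z - (y + p.J (ρ (p.π (z - y)))) = ((z - y) - p.J (p.π (z - y)))
          + p.J (p.π (z - y) - ρ (p.π (z - y))) := by
        rw [map_sub p.J]; abel
      rw [e]
      refine (norm_add_le _ _).trans ?_
      rw [p.normJ]
      have h6 : ‖(z - y) - p.J (p.π (z - y))‖ ≤ δ * s := h4
      linarith
  · intro z hz S hS hS1 hS2
    obtain ⟨p, hp⟩ := hG z (hZ hz)
    have hle : ∀ a ∈ S, ‖a - z‖ ≤ s := fun a ha => by
      have := hS1 a ha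
      rw [dist_eq_norm] at this
      linarith
    refine hN S (fun a => p.π (a - z)) (s / 6) (by positivity)
      (fun a ha => (p.π_le _).trans (by linarith [hle a ha])) fun a ha b hb hab => ?_
    refine hS2 a ha b hb ?_
    rw [← map_sub, sub_sub_sub_cancel_right] at hab
    have h4 := p.norm_le (a - b)
    have h5 := p.N_sub (a - z) (b - z)
    rw [sub_sub_sub_cancel_right] at h5
    have h6 := hp a (hZ (hS ha)) (hle a ha)
    have h7 := hp b (hZ (hS hb)) (hle b hb)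
    rw [dist_eq_norm]
    linarith

theorem exists_chart {E X : Type*} [NormedAddCommGroup E] [NormedSpace ℝ E] [ProperSpace E]
    [NormedAddCommGroup X] {M : Set X} [ChartedSpace E M] (y : M) :
    ∃ (ψ : E → X) (ζ : ℝ), 0 < ζ ∧ Chart M ψ ζ ∧
      ∀ᶠ y' in 𝓝 y, ∃ t : E, ‖t‖ ≤ 1 / 2 ∧ ψ t = (y' : M) := by
  set e := chartAt E y with he
  have hy : y ∈ e.source := mem_chart_source E y
  obtain ⟨ρ, hρ, hρe⟩ := nhds_basis_closedBall.mem_iff.1 (e.open_target.mem_nhds (e.map_source hy))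
  let R : E → E := fun t => (max 1 ‖t‖)⁻¹ • t
  have hRc : Continuous R := by
    refine Continuous.smul (Continuous.inv₀ (by fun_prop) fun t => ?_) continuous_id
    exact (lt_of_lt_of_le one_pos (le_max_left _ _)).ne'
  have hR1 : ∀ t, ‖R t‖ ≤ 1 := by
    intro t
    have h : 0 < max 1 ‖t‖ := lt_of_lt_of_le one_pos (le_max_left _ _)
    simp only [R]
    rw [norm_smul, Real.norm_eq_abs, abs_of_pos (inv_pos.2 h), inv_mul_le_iff₀ h, mul_one]
    exact le_max_right _ _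
  have hR2 : ∀ t, ‖t‖ ≤ 1 → R t = t := by
    intro t ht
    simp only [R]
    rw [max_eq_left ht, inv_one, one_smul]
  have hmem : ∀ t, e y + ρ • R t ∈ e.target := by
    intro t
    apply hρe
    rw [mem_closedBall, dist_eq_norm, add_sub_cancel_left, norm_smul, Real.norm_eq_abs,
      abs_of_pos hρ]
    exact mul_le_of_le_one_right hρ.le (hR1 t)
  let ψ : E → X := fun t => (e.symm (e y + ρ • R t) : M)
  have hψ : Continuous ψ :=
    continuous_subtype_val.comp (e.continuousOn_symm.comp_continuous (by fun_prop) hmem)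
  have hK : IsCompact ((closedBall (0 : E) 1 ×ˢ closedBall (0 : E) 1) ∩
      {q : E × E | 1 / 10 ≤ ‖q.1 - q.2‖}) :=
    ((isCompact_closedBall _ _).prod (isCompact_closedBall _ _)).inter_right
      (isClosed_le continuous_const (by fun_prop))
  obtain ⟨c, hc, hcK⟩ := exists_lower_bound (F := fun q : E × E => ψ q.1 - ψ q.2) (by fun_prop) hK
    (by
      rintro ⟨t, t'⟩ ⟨⟨h1, h2⟩, h3⟩ h0
      have h4 := e.symm.injOn (hmem t) (hmem t') (Subtype.ext (sub_eq_zero.1 h0))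
      rw [hR2 t (mem_closedBall_zero_iff.1 h1), hR2 t' (mem_closedBall_zero_iff.1 h2),
        add_right_inj] at h4
      have h5 : t = t' := smul_right_injective E hρ.ne' h4
      have h6 : 1 / 10 ≤ ‖t - t'‖ := h3
      rw [h5, sub_self, norm_zero] at h6
      linarith)
  refine ⟨ψ, c / 2, by positivity, ⟨hψ, fun t => Subtype.coe_prop _, ?_⟩, ?_⟩
  · intro t t' ht ht' h
    by_contra hn
    have := hcK (t, t') ⟨⟨mem_closedBall_zero_iff.2 ht, mem_closedBall_zero_iff.2 ht'⟩,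
      (not_le.1 hn).le⟩
    simp only at this
    linarith
  · have h1 : ∀ᶠ y' in 𝓝 y, e y' ∈ closedBall (e y) (ρ / 2) :=
      (e.continuousAt hy).eventually (closedBall_mem_nhds _ (by positivity))
    filter_upwards [h1, e.open_source.mem_nhds hy] with y' h2 h3
    have h4 : ‖ρ⁻¹ • (e y' - e y)‖ ≤ 1 / 2 := by
      rw [norm_smul, Real.norm_eq_abs, abs_of_pos (inv_pos.2 hρ), inv_mul_le_iff₀ hρ,
        ← dist_eq_norm]
      linarith [mem_closedBall.1 h2]
    refine ⟨ρ⁻¹ • (e y' - e y), h4, ?_⟩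
    simp only [ψ]
    rw [hR2 _ (by linarith), smul_smul, mul_inv_cancel₀ hρ.ne', one_smul, add_sub_cancel,
      e.left_inv h3]

theorem flat (m : ℕ) (hm : 1 ≤ m) : ∃ δ₀ : ℝ, 0 < δ₀ ∧ δ₀ ≤ 1 / 256 ∧
    ∀ (X : Type) [NormedAddCommGroup X] [InnerProductSpace ℝ X] (M : Set X), IsCompact M →
    Nonempty (ChartedSpace (EuclideanSpace ℝ (Fin m)) M) → ∀ δ R : ℝ, 0 < δ → δ ≤ δ₀ →
    (∀ x ∈ M, ∀ r, 0 < r → r < R → ∃ p : Pl (EuclideanSpace ℝ (Fin m)) X, Good M x r p (δ * r)) →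
    ∀ r, 0 < r → r < R → ∀ y ∈ M, Fat (EuclideanSpace ℝ (Fin m)) M y r (2 * δ * r) := by
  obtain ⟨d, hd, hcol⟩ := exists_col m
  refine ⟨min (1 / 256) (1 / (40 * d + 40)), by positivity, min_le_left _ _, ?_⟩
  intro X _ _ M hM ⟨cs⟩ δ R hδ0 hδ hL
  have hδ1 : δ ≤ 1 / 256 := hδ.trans (min_le_left _ _)
  have hδ2 : δ ≤ 1 / (40 * d + 40) := hδ.trans (min_le_right _ _)
  have : Nonempty (Fin m) := ⟨⟨0, hm⟩⟩
  have : CompactSpace M := isCompact_iff_compactSpace.1 hM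
  have hloc : ∀ (ψ : EuclideanSpace ℝ (Fin m) → X) (ζ : ℝ), Chart M ψ ζ → ∀ s, 0 < s → s < R →
      s ≤ ζ → ∀ t, ‖t‖ ≤ 1 / 2 → Fat (EuclideanSpace ℝ (Fin m)) M (ψ t) s (2 * δ * s) := by
    intro ψ ζ hc s hs0 hsR hs t ht
    let P : EuclideanSpace ℝ (Fin m) → Prop := fun t => ∃ p : Pl (EuclideanSpace ℝ (Fin m)) X,
      Good M (ψ t) s p (δ * s) ∧ deg (fun t' => p.π (ψ t' - ψ t)) (UU ψ t s) ≠ 0
    have hex : ∃ t₀, ‖t₀‖ ≤ 1 / 2 ∧ P t₀ := by
      by_contra hn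
      have h1 : δ * s ≤ s / (4 * d + 4) / 10 := by
        have : s / (4 * d + 4) / 10 = 1 / (40 * d + 40) * s := by field_simp; ring
        rw [this]
        exact mul_le_mul_of_nonneg_right hδ2 hs0.le
      have h2 : (4 * d + 4) * (s / (4 * d + 4)) = s := by field_simp
      have h3 : 0 < s / (4 * d + 4) := by positivity
      refine exists_deg_ne_zero hc (s₁ := s / (4 * d + 4)) (D := d * (s / (4 * d + 4))) hs0 hs hδ0
        (by linarith) h3 h1 (by nlinarith) ?_ ?_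
      · rw [finrank_euclideanSpace_fin]
        exact hcol X M δ s _ hs0 h3 (by nlinarith) (by linarith) (by nlinarith)
          fun y hy => hL y hy s hs0 hsR
      · intro t ht
        obtain ⟨p, hp⟩ := hL _ (hc.mem t) s hs0 hsR
        refine ⟨p, hp, ?_⟩
        by_contra h
        exact hn ⟨t, ht, p, hp, h⟩
    have hspread : ∀ t₀ t₁, ‖t₀‖ ≤ 1 / 2 → ‖t₁‖ ≤ 1 / 2 → ‖ψ t₀ - ψ t₁‖ ≤ s / 10 → P t₀ → P t₁ := by
      rintro t₀ t₁ h0 h1 h2 ⟨p, hp, hpd⟩
      obtain ⟨q, hq⟩ := hL _ (hc.mem t₁) s hs0 hsR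
      exact ⟨q, hq, deg_spread hc h0 h1 hs0 hs hδ0 hδ1 hp hq h2 hpd⟩
    obtain ⟨t₀, ht₀, hP⟩ := hex
    have hconn : IsPreconnected (closedBall (0 : EuclideanSpace ℝ (Fin m)) (1 / 2)) :=
      (convex_closedBall _ _).isPreconnected
    have hPt : P t := hconn.induction₂' (fun a b => P a → P b) (by
      intro a ha
      have h1 : ∀ᶠ b in 𝓝 a, ψ b ∈ closedBall (ψ a) (s / 10) :=
        hc.cont.continuousAt.eventually (closedBall_mem_nhds _ (by positivity))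
      filter_upwards [nhdsWithin_le_nhds h1, self_mem_nhdsWithin] with b hb hb'
      rw [mem_closedBall, dist_eq_norm] at hb
      rw [mem_closedBall_zero_iff] at ha hb'
      exact ⟨hspread a b ha hb' (by rwa [norm_sub_rev]), hspread b a hb' ha hb⟩)
      (fun _ _ _ _ _ _ h1 h2 h => h2 (h1 h)) (mem_closedBall_zero_iff.2 ht₀)
      (mem_closedBall_zero_iff.2 ht) hP
    obtain ⟨p, hp, hpd⟩ := hPt
    refine ⟨p, fun w hw => ?_⟩
    obtain ⟨z, hz, -, h⟩ := fat_of_deg hc ht hs0 hs hδ0 (by linarith) hp hpd w hw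
    exact ⟨z, hz, h⟩
  have huni : ∃ s₀ : ℝ, 0 < s₀ ∧ ∀ s, 0 < s → s < R → s ≤ s₀ → ∀ y ∈ (univ : Set M),
      Fat (EuclideanSpace ℝ (Fin m)) M (y : X) s (2 * δ * s) := by
    refine isCompact_univ.induction_on (p := fun S : Set M => ∃ s₀ : ℝ, 0 < s₀ ∧ ∀ s, 0 < s →
      s < R → s ≤ s₀ → ∀ y ∈ S, Fat (EuclideanSpace ℝ (Fin m)) M (y : X) s (2 * δ * s))
      ⟨1, one_pos, by simp⟩ ?_ ?_ ?_
    · rintro S T hST ⟨s₀, h0, h⟩
      exact ⟨s₀, h0, fun s a b c y hy => h s a b c y (hST hy)⟩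
    · rintro S T ⟨s₀, h0, h⟩ ⟨s₀', h0', h'⟩
      refine ⟨min s₀ s₀', lt_min h0 h0', fun s a b c y hy => ?_⟩
      rcases hy with hy | hy
      · exact h s a b (c.trans (min_le_left _ _)) y hy
      · exact h' s a b (c.trans (min_le_right _ _)) y hy
    · intro y _
      obtain ⟨ψ, ζ, hζ, hc, hev⟩ := exists_chart (E := EuclideanSpace ℝ (Fin m)) y
      refine ⟨_, nhdsWithin_le_nhds hev, ζ, hζ, fun s a b c y' hy' => ?_⟩
      obtain ⟨t, ht, e⟩ := hy'
      rw [← e]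
      exact hloc ψ ζ hc s a b c t ht
  obtain ⟨s₀, hs₀, h⟩ := huni
  exact fat_all hδ0 hδ1 hs₀ hL fun s a b c y hy => h s a b c ⟨y, hy⟩ (mem_univ _)

/-- A subspace of dimension `m` gives a plane. -/
theorem exists_pl {X : Type*} [NormedAddCommGroup X] [InnerProductSpace ℝ X]
    [FiniteDimensional ℝ X] {m : ℕ} (P : Submodule ℝ X) (hP : Module.finrank ℝ P = m) :
    ∃ p : Pl (EuclideanSpace ℝ (Fin m)) X, (∀ w, p.J w ∈ P) ∧ ∀ v ∈ P, ∃ w, p.J w = v := by
  let e : P ≃ₗᵢ[ℝ] EuclideanSpace ℝ (Fin m) :=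
    ((stdOrthonormalBasis ℝ P).reindex (finCongr hP)).repr
  refine ⟨⟨P.subtypeL.comp e.symm.toContinuousLinearEquiv.toContinuousLinearMap,
    e.toContinuousLinearEquiv.toContinuousLinearMap.comp P.orthogonalProjectionOnto, ?_, ?_, ?_⟩,
    fun w => (e.symm w).2, fun v hv => ⟨e ⟨v, hv⟩, by simp⟩⟩
  · intro v
    simp
  · intro v
    exact e.symm.norm_map v
  · intro u
    have := P.norm_sq_eq_add_norm_sq_starProjection u
    rw [Submodule.starProjection_orthogonal_val] at this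
    simpa using this

end Pool.Agent.P.MP_e0d06b_an
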